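import Mathlib

set_option autoImplicit false

namespace Pool.Agent.H696R3.Forest

lemma cone_alg (a ρ Z M M2 : ℝ) (ha : 0 ≤ a) (hρ : 0 < ρ)
    (h0 : (1 + a) * M ^ 2 ≤ a * M2 * Z) (hZ : 1 + a ≤ Z) (hM : Z - 1 ≤ M)
    (hκ : 1 ≤ M2 - 2 * M + Z) (ha0 : a = 0 → M = 0) :
    (Z + ρ) ^ 2 ≤ ((M2 + ρ) * (Z + ρ) - (M + ρ) ^ 2 + (Z + ρ) - (M + ρ)) * (1 + (a + ρ)) := by
  have hMn : 0 ≤ M := by linarith
  -- the shifted variance bound
  have hc1 : 0 ≤ a * M2 + a * Z + M2 * Z - 2 * (1 + a) * M - M ^ 2 := by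
    rcases ha.eq_or_lt with h | h
    · have hM0 := ha0 h.symm
      have hZ1 : Z = 1 := by
        apply le_antisymm
        · linarith
        · linarith
      rw [hM0, hZ1] at hκ
      rw [← h, hM0, hZ1]
      linarith
    · have e : a * (a * M2 + a * Z + M2 * Z - 2 * (1 + a) * M - M ^ 2)
          = a ^ 2 * (M2 - 2 * M + Z - 1) + (a * M2 * Z - (1 + a) * M ^ 2) + (M - a) ^ 2 := by
        ring
      have h1 : 0 ≤ a * (a * M2 + a * Z + M2 * Z - 2 * (1 + a) * M - M ^ 2) := by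
        rw [e]
        have i1 : 0 ≤ a ^ 2 * (M2 - 2 * M + Z - 1) := mul_nonneg (by positivity) (by linarith)
        have i2 : 0 ≤ a * M2 * Z - (1 + a) * M ^ 2 := by linarith
        positivity
      exact nonneg_of_mul_nonneg_right h1 h
  have hV : (1 + (a + ρ)) * (M + ρ) ^ 2 ≤ (a + ρ) * (M2 + ρ) * (Z + ρ) := by
    have e : (a + ρ) * (M2 + ρ) * (Z + ρ) - (1 + (a + ρ)) * (M + ρ) ^ 2
        = (a * M2 * Z - (1 + a) * M ^ 2)
          + ρ * (a * M2 + a * Z + M2 * Z - 2 * (1 + a) * M - M ^ 2)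
          + ρ ^ 2 * (M2 - 2 * M + Z - 1) := by ring
    have i1 : 0 ≤ ρ * (a * M2 + a * Z + M2 * Z - 2 * (1 + a) * M - M ^ 2) :=
      mul_nonneg hρ.le hc1
    have i2 : 0 ≤ ρ ^ 2 * (M2 - 2 * M + Z - 1) := mul_nonneg (by positivity) (by linarith)
    linarith
  set A := a + ρ with hA
  have hA0 : 0 < A := by linarith
  set Zr := Z + ρ with hZr
  set Mr := M + ρ with hMr
  set M2r := M2 + ρ with hM2r
  have hD : 0 ≤ Mr - (Zr - 1) := by linarith
  have hw : A ≤ Zr - 1 := by linarith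
  have key : 0 ≤ A * ((M2r * Zr - Mr ^ 2 + Zr - Mr) * (1 + A) - Zr ^ 2) := by
    have e : A * ((M2r * Zr - Mr ^ 2 + Zr - Mr) * (1 + A) - Zr ^ 2)
        = (1 + A) * (A * M2r * Zr - (1 + A) * Mr ^ 2)
          + (Zr - 1 - A) ^ 2
          + (1 + A) * ((Mr - (Zr - 1)) * (2 * (Zr - 1) - A + (Mr - (Zr - 1)))) := by ring
    rw [e]
    have i1 : 0 ≤ (1 + A) * (A * M2r * Zr - (1 + A) * Mr ^ 2) :=
      mul_nonneg (by linarith) (by linarith)
    have i2 : 0 ≤ (1 + A) * ((Mr - (Zr - 1)) * (2 * (Zr - 1) - A + (Mr - (Zr - 1)))) :=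
      mul_nonneg (by linarith) (mul_nonneg hD (by linarith))
    positivity
  have := nonneg_of_mul_nonneg_right key hA0
  linarith

end Pool.Agent.H696R3.Forest
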