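import Mathlib

set_option autoImplicit false
open Classical

namespace Pool.Agent.H696R3.HardCore

variable {V : Type} [Fintype V] (G : SimpleGraph V) (t : ℝ)

/-- the independent sets of `G` -/
noncomputable def Ind : Finset (Finset V) :=
  (Finset.univ : Finset (Finset V)).filter (fun I : Finset V => G.IsIndepSet (↑I : Set V))

lemma mem_Ind {I : Finset V} : I ∈ Ind G ↔ ∀ a ∈ I, ∀ b ∈ I, ¬ G.Adj a b := by
  unfold Ind
  rw [Finset.mem_filter]
  constructor
  · rintro ⟨_, h⟩ a ha b hb hab
    exact h (Finset.mem_coe.2 ha) (Finset.mem_coe.2 hb) (G.ne_of_adj hab) hab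
  · intro h
    refine ⟨Finset.mem_univ _, ?_⟩
    intro a ha b hb _ hab
    exact h a (Finset.mem_coe.1 ha) b (Finset.mem_coe.1 hb) hab

lemma Ind_mono {I J : Finset V} (hI : I ∈ Ind G) (hJ : J ⊆ I) : J ∈ Ind G := by
  rw [mem_Ind] at hI ⊢
  intro a ha b hb
  exact hI a (hJ ha) b (hJ hb)

lemma Ind_insert {I : Finset V} {v : V} (hI : I ∈ Ind G)
    (hv : G.neighborFinset v ∩ I = ∅) : insert v I ∈ Ind G := by
  rw [mem_Ind] at hI ⊢
  have key : ∀ b ∈ I, ¬ G.Adj v b := by
    intro b hb hab
    have : b ∈ G.neighborFinset v ∩ I :=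
      Finset.mem_inter.2 ⟨(G.mem_neighborFinset v b).2 hab, hb⟩
    rw [hv] at this
    exact absurd this (Finset.notMem_empty b)
  intro a ha b hb hab
  rcases Finset.mem_insert.1 ha with rfl | ha'
  · rcases Finset.mem_insert.1 hb with rfl | hb'
    · exact G.ne_of_adj hab rfl
    · exact key b hb' hab
  · rcases Finset.mem_insert.1 hb with rfl | hb'
    · exact key a ha' hab.symm
    · exact hI a ha' b hb' hab

/-- addition and removal of `v` -/
lemma sum_mem (v : V) :
    ∑ I ∈ (Ind G).filter (fun I => v ∈ I), t ^ I.card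
      = t * ∑ I ∈ (Ind G).filter (fun I => v ∉ I ∧ G.neighborFinset v ∩ I = ∅), t ^ I.card := by
  rw [Finset.mul_sum]
  refine Finset.sum_nbij' (fun I => I.erase v) (fun I => insert v I) ?_ ?_ ?_ ?_ ?_
  · intro I hI
    rw [Finset.mem_filter] at hI ⊢
    refine ⟨Ind_mono G hI.1 (Finset.erase_subset _ _), Finset.notMem_erase v I, ?_⟩
    ext b
    simp only [Finset.mem_inter, SimpleGraph.mem_neighborFinset, Finset.mem_erase,
      Finset.notMem_empty, iff_false]
    rintro ⟨h1, _, h3⟩
    exact (mem_Ind G).1 hI.1 v hI.2 b h3 h1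
  · intro I hI
    rw [Finset.mem_filter] at hI ⊢
    exact ⟨Ind_insert G hI.1 hI.2.2, Finset.mem_insert_self _ _⟩
  · intro I hI
    rw [Finset.mem_filter] at hI
    exact Finset.insert_erase hI.2
  · intro I hI
    rw [Finset.mem_filter] at hI
    exact Finset.erase_insert hI.2.1
  · intro I hI
    rw [Finset.mem_filter] at hI
    show t ^ I.card = t * t ^ (I.erase v).card
    rw [← Finset.card_erase_add_one hI.2, pow_succ]
    ring

/-- the local identity `(1+t) P(v ∈ X) = t P(X ∩ N(v) = ∅)` -/
lemma local_identity (v : V) :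
    (1 + t) * ∑ I ∈ (Ind G).filter (fun I => v ∈ I), t ^ I.card
      = t * ∑ I ∈ (Ind G).filter (fun I => G.neighborFinset v ∩ I = ∅), t ^ I.card := by
  have h1 : (Ind G).filter (fun I => G.neighborFinset v ∩ I = ∅)
      = (Ind G).filter (fun I => v ∈ I) ∪
        (Ind G).filter (fun I => v ∉ I ∧ G.neighborFinset v ∩ I = ∅) := by
    ext I
    simp only [Finset.mem_filter, Finset.mem_union]
    constructor
    · rintro ⟨hI, h⟩
      by_cases hv : v ∈ I
      · exact Or.inl ⟨hI, hv⟩
      · exact Or.inr ⟨hI, hv, h⟩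
    · rintro (⟨hI, hv⟩ | ⟨hI, _, h⟩)
      · refine ⟨hI, ?_⟩
        ext b
        simp only [Finset.mem_inter, SimpleGraph.mem_neighborFinset,
          Finset.notMem_empty, iff_false]
        rintro ⟨ha, hb⟩
        exact (mem_Ind G).1 hI v hv b hb ha
      · exact ⟨hI, h⟩
  have h2 : Disjoint ((Ind G).filter (fun I => v ∈ I))
      ((Ind G).filter (fun I => v ∉ I ∧ G.neighborFinset v ∩ I = ∅)) := by
    rw [Finset.disjoint_left]
    intro I hI hI'
    rw [Finset.mem_filter] at hI hI'
    exact hI'.2.1 hI.2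
  rw [h1, Finset.sum_union h2]
  have h3 := sum_mem G t v
  linear_combination h3

/-- the exchange of `v` for its neighbour `u` -/
lemma exchange (u v : V) :
    ∑ I ∈ (Ind G).filter (fun I => G.neighborFinset u ∩ I = {v}), t ^ I.card
      = ∑ I ∈ (Ind G).filter (fun I => G.neighborFinset v ∩ I = {u}), t ^ I.card := by
  have aux : ∀ a b : V, ∀ I ∈ (Ind G).filter (fun I => G.neighborFinset a ∩ I = {b}),
      b ∈ I ∧ G.Adj a b ∧ a ∉ I ∧
      insert a (I.erase b) ∈ (Ind G).filter (fun I => G.neighborFinset b ∩ I = {a}) := by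
    intro a b I hI
    rw [Finset.mem_filter] at hI
    obtain ⟨hI, h⟩ := hI
    have hb : b ∈ G.neighborFinset a ∩ I := by rw [h]; exact Finset.mem_singleton_self b
    rw [Finset.mem_inter, SimpleGraph.mem_neighborFinset] at hb
    have ha : a ∉ I := fun ha => (mem_Ind G).1 hI a ha b hb.2 hb.1
    refine ⟨hb.2, hb.1, ha, ?_⟩
    rw [Finset.mem_filter]
    constructor
    · apply Ind_insert G (Ind_mono G hI (Finset.erase_subset _ _))
      ext c
      simp only [Finset.mem_inter, Finset.mem_erase, Finset.notMem_empty, iff_false]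
      rintro ⟨h1, h2, h3⟩
      have : c ∈ G.neighborFinset a ∩ I := Finset.mem_inter.2 ⟨h1, h3⟩
      rw [h, Finset.mem_singleton] at this
      exact h2 this
    · ext c
      simp only [Finset.mem_inter, Finset.mem_insert, Finset.mem_erase,
        SimpleGraph.mem_neighborFinset, Finset.mem_singleton]
      constructor
      · rintro ⟨h1, h2 | ⟨_, h3⟩⟩
        · exact h2
        · exact absurd h1 ((mem_Ind G).1 hI b hb.2 c h3)
      · rintro rfl
        exact ⟨hb.1.symm, Or.inl rfl⟩
  refine Finset.sum_nbij' (fun I => insert u (I.erase v)) (fun I => insert v (I.erase u))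
    ?_ ?_ ?_ ?_ ?_
  · intro I hI
    exact (aux u v I hI).2.2.2
  · intro I hI
    exact (aux v u I hI).2.2.2
  · intro I hI
    obtain ⟨h1, h2, h3, _⟩ := aux u v I hI
    show insert v ((insert u (I.erase v)).erase u) = I
    have h4 : u ∉ I.erase v := fun h => h3 (Finset.mem_of_mem_erase h)
    rw [Finset.erase_insert h4, Finset.insert_erase h1]
  · intro I hI
    obtain ⟨h1, h2, h3, _⟩ := aux v u I hI
    show insert u ((insert v (I.erase u)).erase v) = I
    have h4 : v ∉ I.erase u := fun h => h3 (Finset.mem_of_mem_erase h)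
    rw [Finset.erase_insert h4, Finset.insert_erase h1]
  · intro I hI
    obtain ⟨h1, h2, h3, _⟩ := aux u v I hI
    show t ^ I.card = t ^ (insert u (I.erase v)).card
    have h4 : u ∉ I.erase v := fun h => h3 (Finset.mem_of_mem_erase h)
    rw [Finset.card_insert_of_notMem h4, Finset.card_erase_add_one h1]

end Pool.Agent.H696R3.HardCore
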