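import Mathlib
import Pool.Agent.H696R3.HardCore

set_option autoImplicit false
open Classical

namespace Pool.Agent.H696R3.Forest

open Pool.Agent.H696R3.HardCore

variable {V : Type} [Fintype V] (G : SimpleGraph V) (t : ℝ)

/-- neighbours of `v` inside `W` -/
noncomputable def nb (W : Finset V) (v : V) : Finset V := G.neighborFinset v ∩ W

/-- degree of `v` inside `W` -/
noncomputable def dg (W : Finset V) (v : V) : ℕ := (nb G W v).card

/-- partition function of `G[W]` -/
noncomputable def Zf (W : Finset V) : ℝ := ∑ I ∈ (Ind G).filter (fun I => I ⊆ W), t ^ I.card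

/-- unnormalised mean of `G[W]` -/
noncomputable def Mf (W : Finset V) : ℝ :=
  ∑ I ∈ (Ind G).filter (fun I => I ⊆ W), ((I.card : ℕ) : ℝ) * t ^ I.card

/-- Caro–Wei sum of `G[W]` -/
noncomputable def Sf (c : ℝ) (W : Finset V) : ℝ := ∑ v ∈ W, 1 / (c + (dg G W v : ℝ))

variable {G}

lemma mem_nb {W : Finset V} {v y : V} : y ∈ nb G W v ↔ G.Adj v y ∧ y ∈ W := by
  unfold nb
  rw [Finset.mem_inter, SimpleGraph.mem_neighborFinset]

lemma not_self_mem_nb {W : Finset V} {v : V} : v ∉ nb G W v := by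
  rw [mem_nb]
  rintro ⟨h, _⟩
  exact G.ne_of_adj h rfl

lemma nb_mono {W W' : Finset V} (h : W' ⊆ W) (v : V) : nb G W' v ⊆ nb G W v := by
  intro y hy
  rw [mem_nb] at hy ⊢
  exact ⟨hy.1, h hy.2⟩

lemma dg_mono {W W' : Finset V} (h : W' ⊆ W) (v : V) : dg G W' v ≤ dg G W v :=
  Finset.card_le_card (nb_mono h v)

lemma nb_symm {W : Finset V} {v y : V} (h : y ∈ nb G W v) (hv : v ∈ W) : v ∈ nb G W y := by
  rw [mem_nb] at h ⊢
  exact ⟨h.1.symm, hv⟩

lemma rec_gen (φ : ℕ → ℝ) {W : Finset V} {v : V} (hv : v ∈ W) :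
    ∑ I ∈ (Ind G).filter (fun I => I ⊆ W), φ I.card
      = ∑ I ∈ (Ind G).filter (fun I => I ⊆ W.erase v), φ I.card
        + ∑ I ∈ (Ind G).filter (fun I => I ⊆ W \ insert v (nb G W v)), φ (I.card + 1) := by
  have h1 : (Ind G).filter (fun I => I ⊆ W)
      = (Ind G).filter (fun I => I ⊆ W.erase v) ∪
        (Ind G).filter (fun I => I ⊆ W ∧ v ∈ I) := by
    ext I
    simp only [Finset.mem_filter, Finset.mem_union]
    constructor
    · rintro ⟨hI, h⟩
      by_cases hv' : v ∈ I
      · exact Or.inr ⟨hI, h, hv'⟩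
      · exact Or.inl ⟨hI, Finset.subset_erase.2 ⟨h, hv'⟩⟩
    · rintro (⟨hI, h⟩ | ⟨hI, h, _⟩)
      · exact ⟨hI, h.trans (Finset.erase_subset _ _)⟩
      · exact ⟨hI, h⟩
  have h2 : Disjoint ((Ind G).filter (fun I => I ⊆ W.erase v))
      ((Ind G).filter (fun I => I ⊆ W ∧ v ∈ I)) := by
    rw [Finset.disjoint_left]
    intro I hI hI'
    rw [Finset.mem_filter] at hI hI'
    exact Finset.notMem_erase v W (hI.2 hI'.2.2)
  rw [h1, Finset.sum_union h2]
  congr 1
  refine Finset.sum_nbij' (fun I => I.erase v) (fun I => insert v I) ?_ ?_ ?_ ?_ ?_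
  · intro I hI
    rw [Finset.mem_filter] at hI ⊢
    refine ⟨Ind_mono G hI.1 (Finset.erase_subset _ _), ?_⟩
    intro b hb
    rw [Finset.mem_erase] at hb
    rw [Finset.mem_sdiff, Finset.mem_insert, mem_nb]
    refine ⟨hI.2.1 hb.2, ?_⟩
    rintro (h | ⟨h, _⟩)
    · exact hb.1 h
    · exact (mem_Ind G).1 hI.1 v hI.2.2 b hb.2 h
  · intro I hI
    rw [Finset.mem_filter] at hI ⊢
    refine ⟨Ind_insert G hI.1 ?_, ?_, Finset.mem_insert_self _ _⟩
    · ext b
      simp only [Finset.mem_inter, SimpleGraph.mem_neighborFinset, Finset.notMem_empty, iff_false]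
      rintro ⟨ha, hb⟩
      have := hI.2 hb
      rw [Finset.mem_sdiff, Finset.mem_insert, mem_nb] at this
      exact this.2 (Or.inr ⟨ha, this.1⟩)
    · intro b hb
      rcases Finset.mem_insert.1 hb with rfl | hb
      · exact hv
      · exact (Finset.mem_sdiff.1 (hI.2 hb)).1
  · intro I hI
    rw [Finset.mem_filter] at hI
    exact Finset.insert_erase hI.2.2
  · intro I hI
    rw [Finset.mem_filter] at hI
    apply Finset.erase_insert
    intro hvI
    have := hI.2 hvI
    rw [Finset.mem_sdiff] at this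
    exact this.2 (Finset.mem_insert_self _ _)
  · intro I hI
    rw [Finset.mem_filter] at hI
    show φ I.card = φ ((I.erase v).card + 1)
    rw [Finset.card_erase_add_one hI.2.2]

lemma Z_rec {W : Finset V} {v : V} (hv : v ∈ W) :
    Zf G t W = Zf G t (W.erase v) + t * Zf G t (W \ insert v (nb G W v)) := by
  unfold Zf
  rw [rec_gen (fun n => t ^ n) hv, Finset.mul_sum]
  congr 1
  refine Finset.sum_congr rfl fun I _ => ?_
  rw [pow_succ]; ring

lemma M_rec {W : Finset V} {v : V} (hv : v ∈ W) :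
    Mf G t W = Mf G t (W.erase v) + t * (Zf G t (W \ insert v (nb G W v))
      + Mf G t (W \ insert v (nb G W v))) := by
  unfold Mf Zf
  rw [rec_gen (fun n => ((n : ℕ) : ℝ) * t ^ n) hv, ← Finset.sum_add_distrib, Finset.mul_sum]
  congr 1
  refine Finset.sum_congr rfl fun I _ => ?_
  push_cast
  rw [pow_succ]; ring

variable {t}

lemma Zf_pos (ht : 0 < t) (W : Finset V) : 0 < Zf G t W := by
  unfold Zf
  apply Finset.sum_pos
  · intro I _
    positivity
  · exact ⟨∅, Finset.mem_filter.2 ⟨(mem_Ind G).2 (by simp), Finset.empty_subset _⟩⟩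

lemma Zf_mono (ht : 0 < t) {W W' : Finset V} (h : W' ⊆ W) : Zf G t W' ≤ Zf G t W := by
  unfold Zf
  apply Finset.sum_le_sum_of_subset_of_nonneg
  · intro I hI
    rw [Finset.mem_filter] at hI ⊢
    exact ⟨hI.1, hI.2.trans h⟩
  · intro I _ _
    positivity

lemma Zf_le_erase (ht : 0 < t) {W : Finset V} {v : V} (hv : v ∈ W) :
    Zf G t W ≤ (1 + t) * Zf G t (W.erase v) := by
  rw [Z_rec t hv]
  have : Zf G t (W \ insert v (nb G W v)) ≤ Zf G t (W.erase v) := by
    apply Zf_mono ht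
    intro b hb
    rw [Finset.mem_sdiff, Finset.mem_insert] at hb
    rw [Finset.mem_erase]
    exact ⟨fun h => hb.2 (Or.inl h), hb.1⟩
  nlinarith [mul_le_mul_of_nonneg_left this ht.le]

lemma Zf_le_pow (ht : 0 < t) (W : Finset V) (T : Finset V) :
    Zf G t W ≤ (1 + t) ^ T.card * Zf G t (W \ T) := by
  induction T using Finset.induction_on with
  | empty => simp
  | @insert a T ha ih =>
    rw [Finset.card_insert_of_notMem ha, pow_succ]
    have e : W \ insert a T = (W \ T).erase a := by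
      ext b
      simp only [Finset.mem_sdiff, Finset.mem_insert, Finset.mem_erase]
      tauto
    rw [e]
    by_cases haW : a ∈ W \ T
    · have := Zf_le_erase (G := G) ht haW
      calc Zf G t W ≤ (1 + t) ^ T.card * Zf G t (W \ T) := ih
        _ ≤ (1 + t) ^ T.card * ((1 + t) * Zf G t ((W \ T).erase a)) :=
            mul_le_mul_of_nonneg_left this (by positivity)
        _ = _ := by ring
    · rw [Finset.erase_eq_of_notMem haW]
      have hp : 0 < Zf G t (W \ T) := Zf_pos ht _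
      calc Zf G t W ≤ (1 + t) ^ T.card * Zf G t (W \ T) := ih
        _ ≤ (1 + t) ^ T.card * (1 + t) * Zf G t (W \ T) := by
            apply mul_le_mul_of_nonneg_right _ hp.le
            apply le_mul_of_one_le_right (by positivity)
            linarith

/-- isolated vertex -/
lemma Zf_isolated {W : Finset V} {v : V} (hv : v ∈ W) (h : nb G W v = ∅) :
    Zf G t W = (1 + t) * Zf G t (W.erase v) := by
  have e : W \ insert v (nb G W v) = W.erase v := by
    rw [h]
    ext b
    simp only [Finset.mem_sdiff, Finset.mem_insert, Finset.mem_erase, Finset.notMem_empty,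
      or_false]
    tauto
  rw [Z_rec t hv, e]; ring

/-- comparison of the Caro–Wei sums -/
lemma Sf_diff {c : ℝ} (hc : 0 < c) {W W' T : Finset V} (hW : W' ⊆ W) (hT : T ⊆ W') :
    Sf G c W + ∑ v ∈ T, (1 / (c + (dg G W' v : ℝ)) - 1 / (c + (dg G W v : ℝ)))
      ≤ Sf G c W' + ∑ v ∈ W \ W', 1 / (c + (dg G W v : ℝ)) := by
  unfold Sf
  have h1 : ∑ v ∈ W, 1 / (c + (dg G W v : ℝ))
      = ∑ v ∈ W', 1 / (c + (dg G W v : ℝ)) + ∑ v ∈ W \ W', 1 / (c + (dg G W v : ℝ)) := by
    rw [add_comm, Finset.sum_sdiff hW]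
  have h2 : ∑ v ∈ T, (1 / (c + (dg G W' v : ℝ)) - 1 / (c + (dg G W v : ℝ)))
      ≤ ∑ v ∈ W', (1 / (c + (dg G W' v : ℝ)) - 1 / (c + (dg G W v : ℝ))) := by
    apply Finset.sum_le_sum_of_subset_of_nonneg hT
    intro v _ _
    have : (dg G W' v : ℝ) ≤ (dg G W v : ℝ) := by exact_mod_cast dg_mono hW v
    have := one_div_le_one_div_of_le (a := c + (dg G W' v : ℝ)) (b := c + (dg G W v : ℝ))
      (by positivity) (by linarith)
    linarith
  have h3 : ∑ v ∈ W', (1 / (c + (dg G W' v : ℝ)) - 1 / (c + (dg G W v : ℝ)))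
      = ∑ v ∈ W', 1 / (c + (dg G W' v : ℝ)) - ∑ v ∈ W', 1 / (c + (dg G W v : ℝ)) := by
    rw [Finset.sum_sub_distrib]
  linarith

end Pool.Agent.H696R3.Forest
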