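import Mathlib
import Pool.Agent.H696R3.ForestZ

set_option autoImplicit false
open Classical

namespace Pool.Agent.H696R3.Forest

open Pool.Agent.H696R3.HardCore

variable {V : Type} [Fintype V] (G : SimpleGraph V)

/-- the independent sets inside `W` -/
noncomputable def IW (W : Finset V) : Finset (Finset V) := (Ind G).filter (fun I => I ⊆ W)

/-- the vertices of `W` that can be added to `I` -/
noncomputable def free (W I : Finset V) : Finset V :=
  W.filter (fun v => v ∉ I ∧ ∀ y ∈ I, ¬ G.Adj v y)

/-- unnormalised second moment -/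
noncomputable def M2f (t : ℝ) (W : Finset V) : ℝ :=
  ∑ I ∈ (Ind G).filter (fun I => I ⊆ W), ((I.card : ℕ) : ℝ) ^ 2 * t ^ I.card

variable {G}

lemma mem_free {W I : Finset V} {v : V} :
    v ∈ free G W I ↔ v ∈ W ∧ v ∉ I ∧ ∀ y ∈ I, ¬ G.Adj v y := by
  unfold free
  rw [Finset.mem_filter]

lemma mem_IW {W I : Finset V} : I ∈ IW G W ↔ I ∈ Ind G ∧ I ⊆ W := by
  unfold IW
  rw [Finset.mem_filter]

lemma insertion (t : ℝ) (W : Finset V) (φ : Finset V → V → ℝ) :
    ∑ I ∈ IW G W, ∑ v ∈ I, t ^ I.card * φ I v
      = t * ∑ I ∈ IW G W, ∑ v ∈ free G W I, t ^ I.card * φ (insert v I) v := by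
  rw [Finset.mul_sum]
  simp_rw [Finset.mul_sum]
  rw [Finset.sum_sigma', Finset.sum_sigma']
  refine Finset.sum_nbij' (fun x => ⟨x.1.erase x.2, x.2⟩) (fun x => ⟨insert x.2 x.1, x.2⟩)
    ?_ ?_ ?_ ?_ ?_
  · rintro ⟨I, v⟩ h
    simp only [Finset.mem_sigma, mem_IW, mem_free] at h ⊢
    refine ⟨⟨Ind_mono G h.1.1 (Finset.erase_subset _ _), (Finset.erase_subset _ _).trans h.1.2⟩,
      h.1.2 h.2, Finset.notMem_erase _ _, ?_⟩
    intro y hy
    exact (mem_Ind G).1 h.1.1 v h.2 y (Finset.mem_of_mem_erase hy)
  · rintro ⟨I, v⟩ h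
    simp only [Finset.mem_sigma, mem_IW, mem_free] at h ⊢
    refine ⟨⟨Ind_insert G h.1.1 ?_, ?_⟩, Finset.mem_insert_self _ _⟩
    · ext b
      simp only [Finset.mem_inter, SimpleGraph.mem_neighborFinset, Finset.notMem_empty, iff_false]
      rintro ⟨ha, hb⟩
      exact h.2.2.2 b hb ha
    · intro b hb
      rcases Finset.mem_insert.1 hb with rfl | hb
      · exact h.2.1
      · exact h.1.2 hb
  · rintro ⟨I, v⟩ h
    simp only [Finset.mem_sigma] at h
    simp only [Finset.insert_erase h.2]
  · rintro ⟨I, v⟩ h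
    simp only [Finset.mem_sigma, mem_free] at h
    simp only [Finset.erase_insert h.2.2.1]
  · rintro ⟨I, v⟩ h
    simp only [Finset.mem_sigma] at h
    show t ^ I.card * φ I v = t * (t ^ (I.erase v).card * φ (insert v (I.erase v)) v)
    rw [Finset.insert_erase h.2, ← Finset.card_erase_add_one h.2, pow_succ]
    ring

lemma free_erase_sum {W I : Finset V} (hI : I ∈ IW G W) :
    (∑ v ∈ I, ((free G W (I.erase v)).card : ℝ))
      ≤ (I.card : ℝ) * (free G W I).card + W.card - (free G W I).card := by
  rw [mem_IW] at hI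
  have hInd := (mem_Ind G).1 hI.1
  set U : V → Finset V := fun v => W.filter (fun w => ∀ y ∈ I, G.Adj w y ↔ y = v) with hU
  have h1 : ∀ v ∈ I, (free G W (I.erase v)).card ≤ 1 + (free G W I).card + (U v).card := by
    intro v hv
    have hsub : free G W (I.erase v) ⊆ insert v (free G W I ∪ U v) := by
      intro w hw
      rw [mem_free] at hw
      rw [Finset.mem_insert, Finset.mem_union, mem_free, hU, Finset.mem_filter]
      by_cases hwv : w = v
      · exact Or.inl hwv
      right
      have hwI : w ∉ I := fun h => hw.2.1 (Finset.mem_erase.2 ⟨hwv, h⟩)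
      by_cases ha : G.Adj w v
      · right
        refine ⟨hw.1, ?_⟩
        intro y hy
        constructor
        · intro hwy
          by_contra hyv
          exact hw.2.2 y (Finset.mem_erase.2 ⟨hyv, hy⟩) hwy
        · rintro rfl
          exact ha
      · left
        refine ⟨hw.1, hwI, ?_⟩
        intro y hy hwy
        by_cases hyv : y = v
        · rw [hyv] at hwy
          exact ha hwy
        · exact hw.2.2 y (Finset.mem_erase.2 ⟨hyv, hy⟩) hwy
    calc (free G W (I.erase v)).card ≤ (insert v (free G W I ∪ U v)).card :=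
          Finset.card_le_card hsub
      _ ≤ (free G W I ∪ U v).card + 1 := Finset.card_insert_le _ _
      _ ≤ (free G W I).card + (U v).card + 1 := by
          have := Finset.card_union_le (free G W I) (U v)
          omega
      _ = _ := by ring
  have h2 : ∑ v ∈ I, (U v).card + I.card + (free G W I).card ≤ W.card := by
    have hdisj : (I : Set V).PairwiseDisjoint U := by
      intro a ha b hb hab
      show Disjoint (U a) (U b)
      rw [Finset.disjoint_left]
      intro w hwa hwb
      rw [hU] at hwa hwb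
      simp only [Finset.mem_filter] at hwa hwb
      have h3 : G.Adj w a := (hwa.2 a ha).2 rfl
      exact hab ((hwb.2 a ha).1 h3)
    rw [← Finset.card_biUnion hdisj]
    have d1 : Disjoint (I.biUnion U) I := by
      rw [Finset.disjoint_left]
      intro w hw hwI
      rw [Finset.mem_biUnion] at hw
      obtain ⟨v, hv, hwv⟩ := hw
      rw [hU] at hwv
      simp only [Finset.mem_filter] at hwv
      exact hInd w hwI v hv ((hwv.2 v hv).2 rfl)
    have d2 : Disjoint (I.biUnion U ∪ I) (free G W I) := by
      rw [Finset.disjoint_left]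
      intro w hw hwF
      rw [mem_free] at hwF
      rcases Finset.mem_union.1 hw with hw | hw
      · rw [Finset.mem_biUnion] at hw
        obtain ⟨v, hv, hwv⟩ := hw
        rw [hU] at hwv
        simp only [Finset.mem_filter] at hwv
        exact hwF.2.2 v hv ((hwv.2 v hv).2 rfl)
      · exact hwF.2.1 hw
    rw [← Finset.card_union_of_disjoint d1, ← Finset.card_union_of_disjoint d2]
    apply Finset.card_le_card
    intro w hw
    rcases Finset.mem_union.1 hw with hw | hw
    · rcases Finset.mem_union.1 hw with hw | hw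
      · rw [Finset.mem_biUnion] at hw
        obtain ⟨v, _, hwv⟩ := hw
        rw [hU] at hwv
        exact (Finset.mem_filter.1 hwv).1
      · exact hI.2 hw
    · exact (mem_free.1 hw).1
  have h3 : ∑ v ∈ I, (free G W (I.erase v)).card
      ≤ I.card * (1 + (free G W I).card) + ∑ v ∈ I, (U v).card := by
    calc ∑ v ∈ I, (free G W (I.erase v)).card
        ≤ ∑ v ∈ I, (1 + (free G W I).card + (U v).card) := Finset.sum_le_sum h1
      _ = _ := by rw [Finset.sum_add_distrib, Finset.sum_const, smul_eq_mul]
  have h4 : ∑ v ∈ I, (free G W (I.erase v)).card + (free G W I).card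
      ≤ I.card * (free G W I).card + W.card := by
    have : I.card * (1 + (free G W I).card) = I.card + I.card * (free G W I).card := by ring
    omega
  have h5 : (∑ v ∈ I, ((free G W (I.erase v)).card : ℝ)) + ((free G W I).card : ℝ)
      ≤ (I.card : ℝ) * (free G W I).card + W.card := by exact_mod_cast h4
  linarith

/-- the variance bound, in unnormalised form -/
theorem var_bound {t : ℝ} (ht : 0 < t) (W : Finset V) :
    (1 + (W.card : ℝ) * t) * Mf G t W ^ 2
      ≤ (W.card : ℝ) * t * M2f G t W * Zf G t W := by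
  set Z := Zf G t W with hZ
  set M := Mf G t W with hM
  set M2 := M2f G t W with hM2
  set SF := ∑ I ∈ IW G W, t ^ I.card * ((free G W I).card : ℝ) with hSF
  set SFI := ∑ I ∈ IW G W, t ^ I.card * ((free G W I).card * (I.card : ℝ)) with hSFI
  set SFF := ∑ I ∈ IW G W, t ^ I.card * ((free G W I).card : ℝ) ^ 2 with hSFF
  have hZpos : 0 < Z := Zf_pos ht W
  have i1 : M = t * SF := by
    have := insertion (G := G) t W (fun _ _ => 1)
    simp only [mul_one, Finset.sum_const, nsmul_eq_mul] at this
    rw [hM, hSF]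
    unfold Mf
    rw [show (Ind G).filter (fun I => I ⊆ W) = IW G W from rfl, this]
    congr 1
    refine Finset.sum_congr rfl fun I _ => ?_
    ring
  have i2 : M2 - M = t * SFI := by
    have := insertion (G := G) t W (fun I _ => (I.card : ℝ) - 1)
    simp only [Finset.sum_const, nsmul_eq_mul] at this
    have e1 : M2 - M = ∑ I ∈ IW G W, (I.card : ℝ) * (t ^ I.card * ((I.card : ℝ) - 1)) := by
      rw [hM2, hM]
      unfold M2f Mf
      rw [show (Ind G).filter (fun I => I ⊆ W) = IW G W from rfl, ← Finset.sum_sub_distrib]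
      refine Finset.sum_congr rfl fun I _ => ?_
      ring
    rw [e1, this, hSFI]
    congr 1
    refine Finset.sum_congr rfl fun I _ => ?_
    have e2 : ∀ v ∈ free G W I, t ^ I.card * (((insert v I).card : ℝ) - 1)
        = t ^ I.card * (I.card : ℝ) := by
      intro v hv
      rw [Finset.card_insert_of_notMem (mem_free.1 hv).2.1]
      push_cast
      ring
    rw [Finset.sum_congr rfl e2, Finset.sum_const, nsmul_eq_mul]
    ring
  have i3 : t * SFF ≤ SFI + W.card * Z - SF := by
    have := insertion (G := G) t W (fun I v => ((free G W (I.erase v)).card : ℝ))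
    have e1 : ∑ I ∈ IW G W, ∑ v ∈ free G W I,
        t ^ I.card * ((free G W ((insert v I).erase v)).card : ℝ) = SFF := by
      rw [hSFF]
      refine Finset.sum_congr rfl fun I _ => ?_
      have e2 : ∀ v ∈ free G W I, t ^ I.card * ((free G W ((insert v I).erase v)).card : ℝ)
          = t ^ I.card * ((free G W I).card : ℝ) := by
        intro v hv
        rw [Finset.erase_insert (mem_free.1 hv).2.1]
      rw [Finset.sum_congr rfl e2, Finset.sum_const, nsmul_eq_mul]
      ring
    rw [e1] at this
    rw [← this, hSFI, hSF]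
    have hZ' : (W.card : ℝ) * Z = ∑ I ∈ IW G W, (W.card : ℝ) * t ^ I.card := by
      rw [hZ]
      unfold Zf
      rw [Finset.mul_sum]
      rfl
    rw [hZ', ← Finset.sum_add_distrib, ← Finset.sum_sub_distrib]
    refine Finset.sum_le_sum fun I hI => ?_
    rw [← Finset.mul_sum]
    have hb := mul_le_mul_of_nonneg_left (free_erase_sum (G := G) hI)
      (by positivity : (0 : ℝ) ≤ t ^ I.card)
    nlinarith [hb]
  have hsq : ∀ β κ : ℝ, 0 ≤ M2 + (β ^ 2 * ((W.card : ℝ) * t) + κ ^ 2) * Z - 2 * M * (β + κ) := by
    intro β κ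
    have h0 : 0 ≤ ∑ I ∈ IW G W, t ^ I.card *
        ((1 - β) * (I.card : ℝ) + β * t * ((free G W I).card : ℝ) - κ) ^ 2 := by
      apply Finset.sum_nonneg
      intro I _
      positivity
    have e : ∑ I ∈ IW G W, t ^ I.card *
        ((1 - β) * (I.card : ℝ) + β * t * ((free G W I).card : ℝ) - κ) ^ 2
        = (1 - β) ^ 2 * M2 + β ^ 2 * t ^ 2 * SFF + κ ^ 2 * Z + 2 * (1 - β) * β * t * SFI
          - 2 * (1 - β) * κ * M - 2 * β * κ * t * SF := by
      rw [hM2, hSFF, hZ, hSFI, hM, hSF]
      unfold M2f Zf Mf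
      rw [show (Ind G).filter (fun I => I ⊆ W) = IW G W from rfl]
      simp only [Finset.mul_sum]
      rw [← Finset.sum_add_distrib, ← Finset.sum_add_distrib, ← Finset.sum_add_distrib,
        ← Finset.sum_sub_distrib, ← Finset.sum_sub_distrib]
      refine Finset.sum_congr rfl fun I _ => ?_
      ring
    rw [e] at h0
    have h3 : β ^ 2 * t * (t * SFF) ≤ β ^ 2 * t * (SFI + W.card * Z - SF) :=
      mul_le_mul_of_nonneg_left i3 (by positivity)
    have h4 : t * SFI = M2 - M := i2.symm
    have h5 : t * SF = M := i1.symm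
    have e2 : β ^ 2 * t * (SFI + W.card * Z - SF)
        = β ^ 2 * (M2 - M) + β ^ 2 * ((W.card : ℝ) * t) * Z - β ^ 2 * M := by
      rw [← h4, ← h5]; ring
    have e3 : 2 * (1 - β) * β * t * SFI = 2 * (1 - β) * β * (M2 - M) := by
      rw [← h4]; ring
    have e4 : 2 * β * κ * t * SF = 2 * β * κ * M := by
      calc 2 * β * κ * t * SF = 2 * β * κ * (t * SF) := by ring
        _ = _ := by rw [h5]
    rw [e2] at h3
    rw [e3, e4] at h0
    nlinarith [h3, h0]
  rcases W.eq_empty_or_nonempty with h | h
  · have hM0 : M = 0 := by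
      rw [hM, h]
      unfold Mf
      apply Finset.sum_eq_zero
      intro I hI
      rw [Finset.mem_filter] at hI
      rw [Finset.subset_empty.1 hI.2]
      simp
    rw [hM0, h]
    simp
  · have hn : 0 < (W.card : ℝ) := by exact_mod_cast Finset.card_pos.2 h
    have ha : 0 < (W.card : ℝ) * t := by positivity
    have := hsq (M / ((W.card : ℝ) * t * Z)) (M / Z)
    have e : M2 + ((M / ((W.card : ℝ) * t * Z)) ^ 2 * ((W.card : ℝ) * t) + (M / Z) ^ 2) * Z
        - 2 * M * (M / ((W.card : ℝ) * t * Z) + M / Z)
        = (((W.card : ℝ) * t * M2 * Z) - (1 + (W.card : ℝ) * t) * M ^ 2)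
          / ((W.card : ℝ) * t * Z) := by
      field_simp
      ring
    rw [e] at this
    have h6 := (div_nonneg_iff.1 this)
    rcases h6 with h6 | h6
    · linarith [h6.1]
    · have : 0 < (W.card : ℝ) * t * Z := by positivity
      linarith [h6.2]

end Pool.Agent.H696R3.Forest
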