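import Mathlib
import Pool.Agent.H696R3.ConeVar
import Pool.Agent.H696R3.ConeAlg

set_option autoImplicit false
open Classical

namespace Pool.Agent.H696R3.Forest

open Pool.Agent.H696R3.HardCore

variable {V : Type} [Fintype V] {G : SimpleGraph V}

lemma hasDerivAt_Z (W : Finset V) {x : ℝ} (hx : 0 < x) :
    HasDerivAt (fun y => Zf G y W) (Mf G x W / x) x := by
  unfold Zf Mf
  have h : HasDerivAt (fun y : ℝ => ∑ I ∈ (Ind G).filter (fun I => I ⊆ W), y ^ I.card)
      (∑ I ∈ (Ind G).filter (fun I => I ⊆ W), ((I.card : ℕ) : ℝ) * x ^ (I.card - 1)) x := by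
    apply HasDerivAt.fun_sum
    intro I _
    exact hasDerivAt_pow I.card x
  convert h using 1
  rw [Finset.sum_div]
  refine Finset.sum_congr rfl fun I _ => ?_
  rcases Nat.eq_zero_or_pos I.card with h0 | h0
  · rw [h0]; simp
  · have : x ^ I.card = x ^ (I.card - 1) * x := by
      rw [← pow_succ]
      congr 1
      omega
    rw [this]
    field_simp

lemma hasDerivAt_M (W : Finset V) {x : ℝ} (hx : 0 < x) :
    HasDerivAt (fun y => Mf G y W) (M2f G x W / x) x := by
  unfold M2f Mf
  have h : HasDerivAt (fun y : ℝ => ∑ I ∈ (Ind G).filter (fun I => I ⊆ W),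
        ((I.card : ℕ) : ℝ) * y ^ I.card)
      (∑ I ∈ (Ind G).filter (fun I => I ⊆ W),
        ((I.card : ℕ) : ℝ) * (((I.card : ℕ) : ℝ) * x ^ (I.card - 1))) x := by
    apply HasDerivAt.fun_sum
    intro I _
    exact (hasDerivAt_pow I.card x).const_mul _
  convert h using 1
  rw [Finset.sum_div]
  refine Finset.sum_congr rfl fun I _ => ?_
  rcases Nat.eq_zero_or_pos I.card with h0 | h0
  · rw [h0]; simp
  · have : x ^ I.card = x ^ (I.card - 1) * x := by
      rw [← pow_succ]
      congr 1
      omega
    rw [this]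
    field_simp

lemma Z_sub_one_le_M {x : ℝ} (hx : 0 < x) (W : Finset V) : Zf G x W - 1 ≤ Mf G x W := by
  unfold Zf Mf
  have hmem : (∅ : Finset V) ∈ (Ind G).filter (fun I => I ⊆ W) :=
    Finset.mem_filter.2 ⟨(mem_Ind G).2 (by simp), Finset.empty_subset _⟩
  rw [← Finset.add_sum_erase _ _ hmem, ← Finset.add_sum_erase _ _ hmem]
  simp only [Finset.card_empty, pow_zero, Nat.cast_zero, zero_mul, zero_add, add_sub_cancel_left]
  refine Finset.sum_le_sum fun I hI => ?_
  rw [Finset.mem_erase] at hI
  have h1 : 1 ≤ I.card := Finset.card_pos.2 (Finset.nonempty_iff_ne_empty.2 hI.1)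
  have h2 : (1 : ℝ) ≤ (I.card : ℝ) := by exact_mod_cast h1
  have h3 : 0 < x ^ I.card := by positivity
  nlinarith

lemma kappa {x : ℝ} (hx : 0 < x) (W : Finset V) :
    1 ≤ M2f G x W - 2 * Mf G x W + Zf G x W := by
  have e : M2f G x W - 2 * Mf G x W + Zf G x W
      = ∑ I ∈ (Ind G).filter (fun I => I ⊆ W), (((I.card : ℕ) : ℝ) - 1) ^ 2 * x ^ I.card := by
    unfold M2f Mf Zf
    rw [Finset.mul_sum, ← Finset.sum_sub_distrib, ← Finset.sum_add_distrib]
    refine Finset.sum_congr rfl fun I _ => ?_
    ring
  have hmem : (∅ : Finset V) ∈ (Ind G).filter (fun I => I ⊆ W) :=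
    Finset.mem_filter.2 ⟨(mem_Ind G).2 (by simp), Finset.empty_subset _⟩
  rw [e, ← Finset.add_sum_erase _ _ hmem]
  have h0 : 0 ≤ ∑ I ∈ ((Ind G).filter (fun I => I ⊆ W)).erase ∅,
      (((I.card : ℕ) : ℝ) - 1) ^ 2 * x ^ I.card := by
    apply Finset.sum_nonneg
    intro I _
    positivity
  simp only [Finset.card_empty, pow_zero, Nat.cast_zero]
  linarith

lemma Z_ge {x : ℝ} (hx : 0 < x) (W : Finset V) : 1 + (W.card : ℝ) * x ≤ Zf G x W := by
  induction W using Finset.induction_on with
  | empty =>
    have h0 : Zf G x ∅ = 1 := by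
      unfold Zf
      have : (Ind G).filter (fun I => I ⊆ (∅ : Finset V)) = {∅} := by
        ext I
        rw [Finset.mem_filter, Finset.mem_singleton, Finset.subset_empty]
        constructor
        · rintro ⟨_, h⟩; exact h
        · rintro rfl; exact ⟨(mem_Ind G).2 (by simp), rfl⟩
      rw [this]
      simp
    rw [h0]
    simp
  | @insert a W ha ih =>
    rw [Z_rec x (Finset.mem_insert_self a W), Finset.erase_insert ha,
      Finset.card_insert_of_notMem ha]
    have h1 : 1 ≤ Zf G x (insert a W \ insert a (nb G (insert a W) a)) := by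
      have hmem : (∅ : Finset V) ∈ (Ind G).filter
          (fun I => I ⊆ insert a W \ insert a (nb G (insert a W) a)) :=
        Finset.mem_filter.2 ⟨(mem_Ind G).2 (by simp), Finset.empty_subset _⟩
      unfold Zf
      rw [← Finset.add_sum_erase _ _ hmem]
      have : 0 ≤ ∑ I ∈ ((Ind G).filter
          (fun I => I ⊆ insert a W \ insert a (nb G (insert a W) a))).erase ∅, x ^ I.card := by
        apply Finset.sum_nonneg
        intro I _
        positivity
      simp only [Finset.card_empty, pow_zero]
      linarith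
    push_cast
    nlinarith [mul_le_mul_of_nonneg_left h1 hx.le]

lemma M_zero {x : ℝ} {W : Finset V} (h : W = ∅) : Mf G x W = 0 := by
  rw [h]
  unfold Mf
  apply Finset.sum_eq_zero
  intro I hI
  rw [Finset.mem_filter] at hI
  rw [Finset.subset_empty.1 hI.2]
  simp

lemma deriv_alg (x c n Z M M2 : ℝ) (hx : 0 < x) (hR : 0 < Z + (c * x - 1)) (hcn : 0 < c + n)
    (key : (Z + (c * x - 1)) ^ 2 ≤
      ((M2 + (c * x - 1)) * (Z + (c * x - 1)) - (M + (c * x - 1)) ^ 2
        + (Z + (c * x - 1)) - (M + (c * x - 1))) * (1 + (n * x + (c * x - 1)))) :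
    0 ≤ ((M2 / x + c) * (Z + (c * x - 1)) - (M + (c * x - 1)) * (M / x + c))
            / (Z + (c * x - 1)) ^ 2 + (-(1 / x ^ 2)) / (c + n) := by
  have h1 : M2 / x + c = (M2 + (c * x - 1) + 1) / x := by field_simp; ring
  have h2 : M / x + c = (M + (c * x - 1) + 1) / x := by field_simp; ring
  have e1 : 1 + (n * x + (c * x - 1)) = x * (c + n) := by ring
  rw [e1] at key
  rw [h1, h2]
  have gen : ∀ A B C R D : ℝ, R ≠ 0 → D ≠ 0 →
      (A / x * R - B * (C / x)) / R ^ 2 + (-(1 / x ^ 2)) / D
        = (1 / x) * ((A * R - B * C) / R ^ 2 - 1 / (x * D)) := by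
    intro A B C R D hR hD
    have hx' : x ≠ 0 := hx.ne'
    field_simp
    ring
  rw [gen _ _ _ _ _ hR.ne' hcn.ne']
  apply mul_nonneg (by positivity)
  rw [sub_nonneg, div_le_div_iff₀ (by positivity) (by positivity)]
  linarith

/-- the interpolation: joining one vertex -/
theorem join_one {t : ℝ} (ht : 0 < t) (W : Finset V) :
    Mf G (t / (1 + t)) W / Zf G (t / (1 + t)) W + t / (1 + ((W.card : ℝ) + 1) * t)
      ≤ (Mf G t W + t) / (Zf G t W + t) := by
  set c : ℝ := (1 + t) / t with hc
  set n : ℝ := (W.card : ℝ) with hn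
  have hn0 : 0 ≤ n := Nat.cast_nonneg _
  have hc0 : 0 < c := by positivity
  have hct : c * t = 1 + t := by rw [hc]; field_simp
  have hinv : 1 / c = t / (1 + t) := by rw [hc]; field_simp
  have hle : 1 / c ≤ t := by
    rw [hinv, div_le_iff₀ (by positivity)]
    nlinarith
  set f : ℝ → ℝ := fun x => (Mf G x W + (c * x - 1)) / (Zf G x W + (c * x - 1))
      + (1 / x) / (c + n) with hf
  set f' : ℝ → ℝ := fun x =>
      ((M2f G x W / x + c) * (Zf G x W + (c * x - 1))
        - (Mf G x W + (c * x - 1)) * (Mf G x W / x + c)) / (Zf G x W + (c * x - 1)) ^ 2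
      + (-(1 / x ^ 2)) / (c + n) with hf'
  have hxpos : ∀ x ∈ Set.Icc (1 / c) t, 0 < x := by
    intro x hx
    have : 0 < 1 / c := by positivity
    exact lt_of_lt_of_le this hx.1
  have hρ0 : ∀ x ∈ Set.Icc (1 / c) t, 0 ≤ c * x - 1 := by
    intro x hx
    have := mul_le_mul_of_nonneg_left hx.1 hc0.le
    have e : c * (1 / c) = 1 := by field_simp
    rw [e] at this
    linarith
  have hder : ∀ x ∈ Set.Icc (1 / c) t, HasDerivAt f (f' x) x := by
    intro x hx
    have hx0 := hxpos x hx
    have hden : Zf G x W + (c * x - 1) ≠ 0 := by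
      have h1 : 0 < Zf G x W := Zf_pos hx0 W
      have h2 := hρ0 x hx
      positivity
    have hlin : HasDerivAt (fun y : ℝ => c * y - 1) c x := by
      have := ((hasDerivAt_id x).const_mul c).sub_const 1
      simpa using this
    have h1 := ((hasDerivAt_M (G := G) W hx0).add hlin).div
      ((hasDerivAt_Z (G := G) W hx0).add hlin) hden
    have h2 : HasDerivAt (fun y : ℝ => (1 / y) / (c + n)) ((-(1 / x ^ 2)) / (c + n)) x := by
      have h3 : HasDerivAt (fun y : ℝ => 1 / y) (-(1 / x ^ 2)) x := by
        have := hasDerivAt_inv hx0.ne'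
        simpa [one_div] using this
      exact h3.div_const _
    exact h1.add h2
  have hmono : MonotoneOn f (Set.Icc (1 / c) t) := by
    apply monotoneOn_of_hasDerivWithinAt_nonneg (convex_Icc _ _) (f' := f')
    · intro x hx
      exact (hder x hx).continuousAt.continuousWithinAt
    · intro x hx
      exact (hder x (interior_subset hx)).hasDerivWithinAt
    · intro x hx
      have hxI := interior_subset hx
      rw [interior_Icc] at hx
      have hx0 := hxpos x hxI
      have hρ : 0 < c * x - 1 := by
        have := mul_lt_mul_of_pos_left hx.1 hc0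
        have e : c * (1 / c) = 1 := by field_simp
        rw [e] at this
        linarith
      have hZ := Z_ge (G := G) hx0 W
      have hM := Z_sub_one_le_M (G := G) hx0 W
      have hk := kappa (G := G) hx0 W
      have hv := var_bound (G := G) hx0 W
      have hZpos : 0 < Zf G x W := Zf_pos hx0 W
      have key := cone_alg (n * x) (c * x - 1) (Zf G x W) (Mf G x W) (M2f G x W)
        (by positivity) hρ hv hZ hM hk (by
          intro h
          apply M_zero
          rcases mul_eq_zero.1 h with h | h
          · have : W.card = 0 := by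
              rw [hn] at h
              exact_mod_cast h
            exact Finset.card_eq_zero.1 this
          · exact absurd h hx0.ne')
      rw [hf']
      simp only
      set Z := Zf G x W
      set M := Mf G x W
      set M2 := M2f G x W
      have hZr : 0 < Z + (c * x - 1) := by linarith
      have hcn : 0 < c + n := by linarith
      exact deriv_alg x c n Z M M2 hx0 hZr hcn key
  have hfin := hmono (Set.left_mem_Icc.2 hle) (Set.right_mem_Icc.2 hle) hle
  rw [hf] at hfin
  simp only at hfin
  have e1 : c * (1 / c) - 1 = 0 := by field_simp; ring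
  have e2 : c * t - 1 = t := by rw [hct]; ring
  rw [e1, e2, add_zero, add_zero] at hfin
  rw [← hinv]
  have e3 : (1 / (1 / c)) / (c + n) - (1 / t) / (c + n) = t / (1 + (n + 1) * t) := by
    have hcn : 0 < c + n := by linarith
    have e4 : 1 + (n + 1) * t = t * (c + n) := by
      have : t * (c + n) = c * t + n * t := by ring
      rw [this, hct]; ring
    have e5 : 1 / (1 / c) - 1 / t = 1 := by
      rw [one_div_one_div, hc]
      field_simp
      ring
    rw [← sub_div, e5, e4]
    field_simp
  linarith

end Pool.Agent.H696R3.Forest
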