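import Mathlib

set_option autoImplicit false

namespace Pool.Agent.H696R3.Forest

lemma ineq1 (c k d : ℝ) (hc : 1 < c) (hd : 1 ≤ d) (hk0 : 0 ≤ k) (hkd : 1 ≤ k ∨ d = 1) :
    0 ≤ c * (k / (c * (c + 1)) - 1 / (c + k + 1) + 1 / ((c + d - 1) * (c + d)))
      + (1 - 1 / (c + k + 1) - k / (c + 1) - 1 / (c + d)) := by
  have h1 : 0 < c := by linarith
  have h2 : 0 < c + 1 := by linarith
  have h3 : 0 < c + k + 1 := by linarith
  have h4 : 0 < c + d - 1 := by linarith
  have h5 : 0 < c + d := by linarith
  have e : c * (k / (c * (c + 1)) - 1 / (c + k + 1) + 1 / ((c + d - 1) * (c + d)))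
      + (1 - 1 / (c + k + 1) - k / (c + 1) - 1 / (c + d))
      = (k * ((c + d - 1) * (c + d)) - (d - 1) * (c + k + 1))
        / ((c + k + 1) * ((c + d - 1) * (c + d))) := by
    field_simp
    ring
  rw [e]
  apply div_nonneg
  · rcases hkd with hk | hd1
    swap
    · rw [hd1]
      have : 0 ≤ k * ((c + 1 - 1) * (c + 1)) := by
        apply mul_nonneg hk0
        apply mul_nonneg <;> linarith
      linarith
    have hk' : 0 ≤ k - 1 := by linarith
    have hd' : 0 ≤ d - 1 := by linarith
    nlinarith [mul_nonneg hk' hd', mul_nonneg hk' h1.le, mul_nonneg hd' h1.le,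
      mul_nonneg (mul_nonneg hk' hd') h1.le, mul_nonneg (mul_nonneg hk' h1.le) h1.le,
      mul_nonneg (mul_nonneg hk' hd') hd', mul_nonneg hd' hd', mul_pos h1 h1]
  · positivity

lemma ineq2 (c k : ℝ) (hc : 1 < c) (hk : c ≤ k) :
    0 ≤ k / (c * (c + 1)) - 1 / (c + k + 1) := by
  have h1 : 0 < c := by linarith
  have h2 : 0 < c + 1 := by linarith
  have h3 : 0 < c + k + 1 := by linarith
  have e : k / (c * (c + 1)) - 1 / (c + k + 1)
      = (k * (c + k + 1) - c * (c + 1)) / ((c * (c + 1)) * (c + k + 1)) := by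
    field_simp
  rw [e]
  apply div_nonneg
  · nlinarith
  · positivity

lemma ineq3 (c k d n : ℝ) (hc : 1 < c) (hk : 0 ≤ k) (hkc : k < c) (hd : 1 ≤ d)
    (hn : 0 ≤ n) (hdn : d ≤ n + 2) (hkd : 1 ≤ k ∨ d = 1) :
    0 ≤ c ^ 2 * (k / (c * (c + 1)) - 1 / (c + k + 1) + 1 / ((c + d - 1) * (c + d)))
      + (c - k) * (1 - 1 / (c + k + 1) - k / (c + 1) - 1 / (c + d)
        + n * (1 / ((c + k) * (c + k + 1)))) := by
  have h1 : 0 < c := by linarith
  have h2 : 0 < c + 1 := by linarith
  have h3 : 0 < c + k + 1 := by linarith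
  have h4 : 0 < c + d - 1 := by linarith
  have h5 : 0 < c + d := by linarith
  have h6 : 0 < c + k := by linarith
  have h7 : 0 < c - k := by linarith
  have e : c ^ 2 * (k / (c * (c + 1)) - 1 / (c + k + 1) + 1 / ((c + d - 1) * (c + d)))
      + (c - k) * (1 - 1 / (c + k + 1) - k / (c + 1) - 1 / (c + d)
        + n * (1 / ((c + k) * (c + k + 1))))
      = k ^ 3 / ((c + 1) * (c + k + 1))
        + (c * (k + 1 - d) + k * (d - 1)) / ((c + d - 1) * (c + d))
        + (c - k) * (n * (1 / ((c + k) * (c + k + 1)))) := by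
    field_simp
    ring
  rw [e]
  have t1 : 0 ≤ k ^ 3 / ((c + 1) * (c + k + 1)) := by positivity
  rcases le_or_gt d (k + 1) with hdk | hdk
  · have t2 : 0 ≤ (c * (k + 1 - d) + k * (d - 1)) / ((c + d - 1) * (c + d)) := by
      apply div_nonneg
      · have : 0 ≤ c * (k + 1 - d) := mul_nonneg h1.le (by linarith)
        have : 0 ≤ k * (d - 1) := mul_nonneg hk (by linarith)
        linarith
      · positivity
    have t3 : 0 ≤ (c - k) * (n * (1 / ((c + k) * (c + k + 1)))) := by positivity
    linarith
  · have q : 1 / ((c + d - 1) * (c + d)) ≤ 1 / ((c + k) * (c + k + 1)) := by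
      apply one_div_le_one_div_of_le (by positivity)
      apply mul_le_mul (by linarith) (by linarith) (by positivity) (by positivity)
    have q2 : (c - k) * (n * (1 / ((c + d - 1) * (c + d))))
        ≤ (c - k) * (n * (1 / ((c + k) * (c + k + 1)))) := by
      apply mul_le_mul_of_nonneg_left _ h7.le
      exact mul_le_mul_of_nonneg_left q hn
    have q3 : 0 ≤ (c * (k + 1 - d) + k * (d - 1)) / ((c + d - 1) * (c + d))
        + (c - k) * (n * (1 / ((c + d - 1) * (c + d)))) := by
      have e2 : (c * (k + 1 - d) + k * (d - 1)) / ((c + d - 1) * (c + d))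
          + (c - k) * (n * (1 / ((c + d - 1) * (c + d))))
          = (c * (k + 1 - d) + k * (d - 1) + (c - k) * n) / ((c + d - 1) * (c + d)) := by
        field_simp
      rw [e2]
      apply div_nonneg
      · have hx : (c - k) * (d - 2) ≤ (c - k) * n := mul_le_mul_of_nonneg_left (by linarith) h7.le
        have hy : 0 ≤ c * (k + 1 - d) + k * (d - 1) + (c - k) * (d - 2) := by
          have : c * (k + 1 - d) + k * (d - 1) + (c - k) * (d - 2) = c * (k - 1) + k := by ring
          rw [this]
          have hk1 : 1 ≤ k := by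
            rcases hkd with h | h
            · exact h
            · linarith
          have : 0 ≤ c * (k - 1) := mul_nonneg h1.le (by linarith)
          linarith
        linarith
      · positivity
    linarith

end Pool.Agent.H696R3.Forest
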