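import Mathlib
import Pool.Agent.H696R3.ForestZ
import Pool.Agent.H696R3.ForestIneq

set_option autoImplicit false
open Classical

namespace Pool.Agent.H696R3.Forest

open Pool.Agent.H696R3.HardCore

variable {V : Type} [Fintype V] {G : SimpleGraph V} {t : ℝ}

lemma bern (c : ℝ) (ht : 0 < t) (hct : c * t = 1 + t) (k : ℕ) :
    (c - k) * (1 + t) ^ k ≤ c := by
  induction k with
  | zero => simp
  | succ k ih =>
    have h0 : 0 < (1 + t) ^ k := by positivity
    have h1 : (c - (k + 1)) * (1 + t) ≤ c - k := by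
      have : 0 ≤ (k : ℝ) * t := by positivity
      nlinarith
    calc (c - ((k + 1 : ℕ) : ℝ)) * (1 + t) ^ (k + 1)
        = ((c - (k + 1)) * (1 + t)) * (1 + t) ^ k := by push_cast; ring
      _ ≤ (c - k) * (1 + t) ^ k := mul_le_mul_of_nonneg_right h1 h0.le
      _ ≤ c := ih

lemma step_gen (c : ℝ) (ht : 0 < t) {W : Finset V} {v : V} (hv : v ∈ W)
    (ih1 : Sf G c (W.erase v) * Zf G t (W.erase v) ≤ Mf G t (W.erase v))
    (ih2 : Sf G c (W \ insert v (nb G W v)) * Zf G t (W \ insert v (nb G W v))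
      ≤ Mf G t (W \ insert v (nb G W v)))
    (h : 0 ≤ (Sf G c (W.erase v) - Sf G c W) * Zf G t (W.erase v)
      + (1 + Sf G c (W \ insert v (nb G W v)) - Sf G c W)
        * (t * Zf G t (W \ insert v (nb G W v)))) :
    Sf G c W * Zf G t W ≤ Mf G t W := by
  rw [Z_rec t hv, M_rec t hv]
  have := mul_le_mul_of_nonneg_left ih2 ht.le
  nlinarith

lemma cone (c k a0 b1 a b ρ σ : ℝ) (hc : 1 < c) (hk : 0 ≤ k) (hρ : 0 < ρ) (hσ : 0 < σ)
    (h1 : c * σ ≤ ρ) (h2 : k < c → (c - k) * ρ ≤ c ^ 2 * σ)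
    (ha : a0 ≤ a) (hb : b1 ≤ b) (h3 : 0 ≤ c * a0 + b1)
    (h4 : c ≤ k → 0 ≤ a0) (h5 : k < c → 0 ≤ c ^ 2 * a0 + (c - k) * b1) :
    0 ≤ a * ρ + b * σ := by
  have hfin : 0 ≤ a0 * ρ + b1 * σ := by
    rcases le_or_gt c k with hck | hck
    · have h4' := h4 hck
      have e : a0 * ρ + b1 * σ = a0 * (ρ - c * σ) + (c * a0 + b1) * σ := by ring
      rw [e]
      have : 0 ≤ ρ - c * σ := by linarith
      positivity
    · have h2' := h2 hck
      have h5' := h5 hck
      rcases hk.eq_or_lt with hk0 | hk0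
      · rw [← hk0] at h2'
        have hcpos : 0 < c := by linarith
        have e : ρ = c * σ := by
          apply le_antisymm _ h1
          have : c * ρ ≤ c * (c * σ) := by nlinarith
          exact le_of_mul_le_mul_left this hcpos
        have e2 : a0 * ρ + b1 * σ = (c * a0 + b1) * σ := by rw [e]; ring
        rw [e2]
        positivity
      · have hck0 : 0 < c * k := mul_pos (by linarith) hk0
        have e : (c * k) * (a0 * ρ + b1 * σ)
            = (c ^ 2 * σ - (c - k) * ρ) * (c * a0 + b1)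
              + (ρ - c * σ) * (c ^ 2 * a0 + (c - k) * b1) := by ring
        have : 0 ≤ (c * k) * (a0 * ρ + b1 * σ) := by
          rw [e]
          have i1 : 0 ≤ c ^ 2 * σ - (c - k) * ρ := by linarith
          have i2 : 0 ≤ ρ - c * σ := by linarith
          positivity
        exact nonneg_of_mul_nonneg_right this hck0
  have i1 : a0 * ρ ≤ a * ρ := mul_le_mul_of_nonneg_right ha hρ.le
  have i2 : b1 * σ ≤ b * σ := mul_le_mul_of_nonneg_right hb hσ.le
  linarith

lemma dg_erase {W : Finset V} {u v : V} (hu : u ∈ W) (hv : v ∈ nb G W u) :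
    dg G (W.erase u) v + 1 = dg G W v := by
  unfold dg
  have huv : u ∈ nb G W v := nb_symm hv hu
  have e : nb G (W.erase u) v = (nb G W v).erase u := by
    ext y
    rw [mem_nb, Finset.mem_erase, Finset.mem_erase, mem_nb]
    tauto
  rw [e]
  exact Finset.card_erase_add_one huv

/-- the pendant star configuration -/
structure Star (G : SimpleGraph V) (W : Finset V) (u w : V) (Y : Finset V) : Prop where
  hu : u ∈ W
  hw : w ∈ nb G W u
  leaf : ∀ l ∈ (nb G W u).erase w, dg G W l = 1
  hY : Y ⊆ nb G W w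
  uY : u ∉ Y
  Yfar : ∀ y ∈ Y, y ∉ nb G W u
  Ydeg : ∀ y ∈ Y, dg G W y ≤ dg G W u
  dw : dg G W w ≤ Y.card + 2
  nontriv : 1 ≤ ((nb G W u).erase w).card ∨ dg G W w = 1

lemma star_a {c : ℝ} (hc : 1 < c) {W Y : Finset V} {u w : V} (h : Star G W u w Y) :
    ((((nb G W u).erase w).card : ℕ) : ℝ) / (c * (c + 1))
      - 1 / (c + (((nb G W u).erase w).card : ℕ) + 1)
      + 1 / ((c + (dg G W w : ℝ) - 1) * (c + (dg G W w : ℝ)))
    ≤ Sf G c (W.erase u) - Sf G c W := by
  have hc0 : 0 < c := by linarith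
  have hsub : nb G W u ⊆ W.erase u := by
    intro y hy
    rw [Finset.mem_erase]
    refine ⟨?_, (mem_nb.1 hy).2⟩
    rintro rfl
    exact not_self_mem_nb hy
  have key := Sf_diff (G := G) hc0 (Finset.erase_subset u W) hsub
  have e1 : W \ W.erase u = {u} := by
    ext y
    simp only [Finset.mem_sdiff, Finset.mem_erase, Finset.mem_singleton]
    constructor
    · rintro ⟨h1, h2⟩
      by_contra h3
      exact h2 ⟨h3, h1⟩
    · rintro rfl
      exact ⟨h.hu, fun h2 => h2.1 rfl⟩
  rw [e1, Finset.sum_singleton] at key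
  have hdu : (dg G W u : ℝ) = (((nb G W u).erase w).card : ℕ) + 1 := by
    have := Finset.card_erase_add_one h.hw
    unfold dg
    rw [← this]
    push_cast
    ring
  have hsum := Finset.add_sum_erase (nb G W u)
    (fun v => 1 / (c + (dg G (W.erase u) v : ℝ)) - 1 / (c + (dg G W v : ℝ))) h.hw
  have hl : ∑ v ∈ (nb G W u).erase w,
      (1 / (c + (dg G (W.erase u) v : ℝ)) - 1 / (c + (dg G W v : ℝ)))
      = ((((nb G W u).erase w).card : ℕ) : ℝ) / (c * (c + 1)) := by
    rw [Finset.sum_congr rfl (g := fun _ => 1 / (c * (c + 1)))]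
    · rw [Finset.sum_const, nsmul_eq_mul]
      ring
    · intro l hl
      have h1 := h.leaf l hl
      have h2 := dg_erase h.hu (Finset.mem_of_mem_erase hl)
      have h3 : dg G (W.erase u) l = 0 := by omega
      rw [h1, h3]
      have : 0 < c + 1 := by linarith
      push_cast
      field_simp
      ring
  have hww : 1 / (c + (dg G (W.erase u) w : ℝ)) - 1 / (c + (dg G W w : ℝ))
      = 1 / ((c + (dg G W w : ℝ) - 1) * (c + (dg G W w : ℝ))) := by
    have h2 := dg_erase h.hu h.hw
    have h3 : (dg G W w : ℝ) = (dg G (W.erase u) w : ℝ) + 1 := by exact_mod_cast h2.symm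
    rw [h3]
    set x : ℝ := (dg G (W.erase u) w : ℝ)
    have hx : 0 ≤ x := Nat.cast_nonneg _
    have e : c + (x + 1) - 1 = c + x := by ring
    rw [e]
    have i1 : 0 < c + x := by linarith
    have i2 : 0 < c + (x + 1) := by linarith
    field_simp
    ring
  have e2 : c + (dg G W u : ℝ) = c + (((nb G W u).erase w).card : ℕ) + 1 := by
    rw [hdu]; ring
  rw [e2] at key
  linarith

lemma star_b {c : ℝ} (hc : 1 < c) {W Y : Finset V} {u w : V} (h : Star G W u w Y) :
    1 - 1 / (c + (((nb G W u).erase w).card : ℕ) + 1)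
      - ((((nb G W u).erase w).card : ℕ) : ℝ) / (c + 1) - 1 / (c + (dg G W w : ℝ))
      + (Y.card : ℝ) * (1 / ((c + (((nb G W u).erase w).card : ℕ))
        * (c + (((nb G W u).erase w).card : ℕ) + 1)))
    ≤ 1 + Sf G c (W \ insert u (nb G W u)) - Sf G c W := by
  have hc0 : 0 < c := by linarith
  have hYW : Y ⊆ W \ insert u (nb G W u) := by
    intro y hy
    rw [Finset.mem_sdiff, Finset.mem_insert]
    refine ⟨(mem_nb.1 (h.hY hy)).2, ?_⟩
    rintro (rfl | h2)
    · exact h.uY hy
    · exact h.Yfar y hy h2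
  have key := Sf_diff (G := G) hc0 (Finset.sdiff_subset (s := W) (t := insert u (nb G W u))) hYW
  have hins : insert u (nb G W u) ⊆ W := by
    intro y hy
    rcases Finset.mem_insert.1 hy with rfl | hy
    · exact h.hu
    · exact (mem_nb.1 hy).2
  rw [Finset.sdiff_sdiff_eq_self hins, Finset.sum_insert not_self_mem_nb] at key
  have hdu' : dg G W u = ((nb G W u).erase w).card + 1 :=
    (Finset.card_erase_add_one h.hw).symm
  have hdu : (dg G W u : ℝ) = (((nb G W u).erase w).card : ℕ) + 1 := by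
    rw [hdu']; push_cast; ring
  have hsum := Finset.add_sum_erase (nb G W u) (fun v => 1 / (c + (dg G W v : ℝ))) h.hw
  have hl : ∑ v ∈ (nb G W u).erase w, 1 / (c + (dg G W v : ℝ))
      = ((((nb G W u).erase w).card : ℕ) : ℝ) / (c + 1) := by
    rw [Finset.sum_congr rfl (g := fun _ => 1 / (c + 1))]
    · rw [Finset.sum_const, nsmul_eq_mul]
      ring
    · intro l hl
      rw [h.leaf l hl]
      push_cast
      rfl
  set k : ℝ := ((((nb G W u).erase w).card : ℕ) : ℝ) with hk
  have hk0 : 0 ≤ k := Nat.cast_nonneg _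
  have hy : (Y.card : ℝ) * (1 / ((c + k) * (c + k + 1)))
      ≤ ∑ v ∈ Y, (1 / (c + (dg G (W \ insert u (nb G W u)) v : ℝ)) - 1 / (c + (dg G W v : ℝ))) := by
    rw [← nsmul_eq_mul, ← Finset.sum_const]
    apply Finset.sum_le_sum
    intro y hy
    have h1 : (dg G W y : ℝ) ≤ k + 1 := by
      have := h.Ydeg y hy
      rw [← hdu]
      exact_mod_cast this
    have hwy : w ∈ nb G W y := nb_symm (h.hY hy) (mem_nb.1 h.hw).2
    have h2 : dg G (W \ insert u (nb G W u)) y + 1 ≤ dg G W y := by
      unfold dg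
      rw [← Finset.card_erase_add_one hwy]
      apply Nat.succ_le_succ
      apply Finset.card_le_card
      intro z hz
      rw [mem_nb, Finset.mem_sdiff, Finset.mem_insert] at hz
      rw [Finset.mem_erase, mem_nb]
      refine ⟨?_, hz.1, hz.2.1⟩
      rintro rfl
      exact hz.2.2 (Or.inr h.hw)
    have h2' : (dg G (W \ insert u (nb G W u)) y : ℝ) + 1 ≤ (dg G W y : ℝ) := by exact_mod_cast h2
    set D : ℝ := (dg G W y : ℝ)
    set D' : ℝ := (dg G (W \ insert u (nb G W u)) y : ℝ)
    have hD' : 0 ≤ D' := Nat.cast_nonneg _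
    have hD1 : 0 < c + D - 1 := by linarith
    have hD2 : 0 < c + D := by linarith
    have j1 : 1 / (c + D - 1) ≤ 1 / (c + D') :=
      one_div_le_one_div_of_le (by linarith) (by linarith)
    have j2 : 1 / (c + D - 1) - 1 / (c + D) = 1 / ((c + D - 1) * (c + D)) := by
      field_simp
      ring
    have j3 : 1 / ((c + k) * (c + k + 1)) ≤ 1 / ((c + D - 1) * (c + D)) := by
      apply one_div_le_one_div_of_le (by positivity)
      apply mul_le_mul (by linarith) (by linarith) (by positivity) (by positivity)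
    linarith
  have e2 : c + (dg G W u : ℝ) = c + k + 1 := by
    rw [hdu]; ring
  rw [e2] at key
  linarith

lemma star_step {c : ℝ} (ht : 0 < t) (hct : c * t = 1 + t) (hc : 1 < c) {W Y : Finset V} {u w : V}
    (h : Star G W u w Y)
    (ih : ∀ W' : Finset V, W'.card < W.card → Sf G c W' * Zf G t W' ≤ Mf G t W') :
    Sf G c W * Zf G t W ≤ Mf G t W := by
  have hins : insert u (nb G W u) ⊆ W := by
    intro y hy
    rcases Finset.mem_insert.1 hy with rfl | hy
    · exact h.hu
    · exact (mem_nb.1 hy).2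
  apply step_gen c ht h.hu
  · exact ih _ (Finset.card_erase_lt_of_mem h.hu)
  · apply ih
    apply Finset.card_lt_card
    refine ⟨Finset.sdiff_subset, ?_⟩
    intro hcon
    have := hcon h.hu
    rw [Finset.mem_sdiff] at this
    exact this.2 (Finset.mem_insert_self _ _)
  have ha := star_a hc h
  have hb := star_b hc h
  have hdw1 : 1 ≤ dg G W w := by
    have : u ∈ nb G W w := nb_symm h.hw h.hu
    exact Finset.card_pos.2 ⟨u, this⟩
  have hdw1' : (1 : ℝ) ≤ (dg G W w : ℝ) := by exact_mod_cast hdw1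
  have hkd : (1 : ℝ) ≤ ((((nb G W u).erase w).card : ℕ) : ℝ) ∨ (dg G W w : ℝ) = 1 := by
    rcases h.nontriv with h1 | h1
    · left; exact_mod_cast h1
    · right; exact_mod_cast h1
  have hdn : (dg G W w : ℝ) ≤ (Y.card : ℝ) + 2 := by exact_mod_cast h.dw
  have hk0 : (0 : ℝ) ≤ ((((nb G W u).erase w).card : ℕ) : ℝ) := Nat.cast_nonneg _
  have hn0 : (0 : ℝ) ≤ (Y.card : ℝ) := Nat.cast_nonneg _
  have hZ1 : 0 < Zf G t (W.erase u) := Zf_pos ht _
  have hZ2 : 0 < Zf G t (W \ insert u (nb G W u)) := Zf_pos ht _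
  refine cone c _ _ _ _ _ _ _ hc hk0 hZ1 (mul_pos ht hZ2) ?_ ?_ ha hb ?_ ?_ ?_
  · -- upper bound for the ratio
    have hleaf : ∃ l ∈ nb G W u, dg G W l = 1 := by
      rcases h.nontriv with h1 | h1
      · obtain ⟨l, hl⟩ := Finset.card_pos.1 (Nat.lt_of_lt_of_le Nat.zero_lt_one h1)
        exact ⟨l, Finset.mem_of_mem_erase hl, h.leaf l hl⟩
      · exact ⟨w, h.hw, h1⟩
    obtain ⟨l, hl, hl1⟩ := hleaf
    have hlW : l ∈ W.erase u := by
      rw [Finset.mem_erase]
      refine ⟨?_, (mem_nb.1 hl).2⟩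
      rintro rfl
      exact not_self_mem_nb hl
    have hl2 : nb G (W.erase u) l = ∅ := by
      have := dg_erase h.hu hl
      rw [hl1] at this
      have h0 : dg G (W.erase u) l = 0 := by omega
      exact Finset.card_eq_zero.1 h0
    rw [Zf_isolated hlW hl2]
    have hm : Zf G t (W \ insert u (nb G W u)) ≤ Zf G t ((W.erase u).erase l) := by
      apply Zf_mono ht
      intro y hy
      rw [Finset.mem_sdiff, Finset.mem_insert] at hy
      rw [Finset.mem_erase, Finset.mem_erase]
      refine ⟨?_, fun h1 => hy.2 (Or.inl h1), hy.1⟩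
      rintro rfl
      exact hy.2 (Or.inr hl)
    calc c * (t * Zf G t (W \ insert u (nb G W u)))
        = (1 + t) * Zf G t (W \ insert u (nb G W u)) := by rw [← mul_assoc, hct]
      _ ≤ _ := mul_le_mul_of_nonneg_left hm (by linarith)
  · -- lower bound for the ratio
    intro hkc
    have h1 : Zf G t (W.erase u)
        ≤ (1 + t) ^ (nb G W u).card * Zf G t ((W.erase u) \ nb G W u) := Zf_le_pow ht _ _
    have e : (W.erase u) \ nb G W u = W \ insert u (nb G W u) := by
      ext y
      simp only [Finset.mem_sdiff, Finset.mem_insert, Finset.mem_erase]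
      tauto
    rw [e, ← Finset.card_erase_add_one h.hw, pow_succ] at h1
    have hb := bern c ht hct ((nb G W u).erase w).card
    set kk := ((nb G W u).erase w).card
    set Z' := Zf G t (W \ insert u (nb G W u))
    have h3 : 0 ≤ c - (kk : ℝ) := by linarith
    calc (c - (kk : ℝ)) * Zf G t (W.erase u)
        ≤ (c - (kk : ℝ)) * ((1 + t) ^ kk * (1 + t) * Z') := mul_le_mul_of_nonneg_left h1 h3
      _ = ((c - (kk : ℝ)) * (1 + t) ^ kk) * ((1 + t) * Z') := by ring
      _ ≤ c * ((1 + t) * Z') := mul_le_mul_of_nonneg_right hb (by positivity)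
      _ = c ^ 2 * (t * Z') := by rw [← hct]; ring
  · have := ineq1 c _ _ hc hdw1' hk0 hkd
    have h2 : 0 ≤ (Y.card : ℝ) * (1 / ((c + (((nb G W u).erase w).card : ℕ))
        * (c + (((nb G W u).erase w).card : ℕ) + 1))) := by positivity
    linarith
  · intro hck
    have := ineq2 c _ hc hck
    have h2 : 0 ≤ 1 / ((c + (dg G W w : ℝ) - 1) * (c + (dg G W w : ℝ))) := by
      have : 0 < c + (dg G W w : ℝ) - 1 := by linarith
      positivity
    linarith
  · intro hkc
    exact ineq3 c _ _ _ hc hk0 hkc hdw1' hn0 hdn hkd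

lemma isolated_step {c : ℝ} (ht : 0 < t) (hct : c * t = 1 + t) (hc : 1 < c) {W : Finset V} {v : V}
    (hv : v ∈ W) (hiso : nb G W v = ∅)
    (ih : ∀ W' : Finset V, W'.card < W.card → Sf G c W' * Zf G t W' ≤ Mf G t W') :
    Sf G c W * Zf G t W ≤ Mf G t W := by
  have e : W \ insert v (nb G W v) = W.erase v := by
    rw [hiso]
    ext b
    simp only [Finset.mem_sdiff, Finset.mem_insert, Finset.mem_erase, Finset.notMem_empty,
      or_false]
    tauto
  have i1 := ih _ (Finset.card_erase_lt_of_mem hv)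
  apply step_gen c ht hv i1
  · rw [e]; exact i1
  rw [e]
  have hc0 : 0 < c := by linarith
  have key := Sf_diff (G := G) hc0 (Finset.erase_subset v W) (Finset.empty_subset (W.erase v))
  have e1 : W \ W.erase v = {v} := by
    ext y
    simp only [Finset.mem_sdiff, Finset.mem_erase, Finset.mem_singleton]
    constructor
    · rintro ⟨h1, h2⟩
      by_contra h3
      exact h2 ⟨h3, h1⟩
    · rintro rfl
      exact ⟨hv, fun h2 => h2.1 rfl⟩
  rw [e1, Finset.sum_singleton, Finset.sum_empty] at key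
  have hd : dg G W v = 0 := by unfold dg; rw [hiso]; rfl
  rw [hd] at key
  have hZ : 0 < Zf G t (W.erase v) := Zf_pos ht _
  have h1 : -(1 / c) ≤ Sf G c (W.erase v) - Sf G c W := by
    have : (c + ((0 : ℕ) : ℝ)) = c := by push_cast; ring
    rw [this] at key
    linarith
  have h2 : (Sf G c (W.erase v) - Sf G c W) * (1 + t) + t ≥ 0 := by
    have : -(1 / c) * (1 + t) = -t := by
      rw [← hct]
      field_simp
    nlinarith
  have e3 : (Sf G c (W.erase v) - Sf G c W) * Zf G t (W.erase v)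
      + (1 + Sf G c (W.erase v) - Sf G c W) * (t * Zf G t (W.erase v))
      = ((Sf G c (W.erase v) - Sf G c W) * (1 + t) + t) * Zf G t (W.erase v) := by ring
  rw [e3]
  positivity

end Pool.Agent.H696R3.Forest
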