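import Mathlib
import Pool.Agent.H696R3.ForestStep

set_option autoImplicit false
open Classical

namespace Pool.Agent.H696R3.Forest

open Pool.Agent.H696R3.HardCore

variable {V : Type} [Fintype V] {G : SimpleGraph V} {t : ℝ}

lemma exists_star (δ : V → ℕ)
    (H1 : ∀ u v, G.Adj u v → δ u = δ v + 1 ∨ δ v = δ u + 1)
    (H2 : ∀ v y z, G.Adj v y → G.Adj v z → δ y < δ v → δ z < δ v → y = z)
    (W : Finset V) (hW : W.Nonempty) :
    (∃ v ∈ W, nb G W v = ∅) ∨ ∃ u w Y, Star G W u w Y := by
  obtain ⟨v0, hv0, hmax⟩ := Finset.exists_max_image W δ hW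
  by_cases hiso : nb G W v0 = ∅
  · exact Or.inl ⟨v0, hv0, hiso⟩
  right
  obtain ⟨v1, hv1⟩ := Finset.nonempty_iff_ne_empty.2 hiso
  have hv1W : v1 ∈ W := (mem_nb.1 hv1).2
  have hd01 : δ v0 = δ v1 + 1 := by
    rcases H1 _ _ (mem_nb.1 hv1).1 with h | h
    · exact h
    · have := hmax v1 hv1W
      omega
  -- every vertex at maximal depth has one neighbour
  have hdeep : ∀ l u, l ∈ W → δ l = δ v0 → u ∈ nb G W l → dg G W l = 1 := by
    intro l u hl hdl hu
    unfold dg
    rw [Finset.card_eq_one]
    refine ⟨u, ?_⟩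
    have low : ∀ y ∈ nb G W l, δ y < δ l := by
      intro y hy
      have h1 := hmax y (mem_nb.1 hy).2
      rcases H1 _ _ (mem_nb.1 hy).1 with h | h <;> omega
    ext y
    rw [Finset.mem_singleton]
    constructor
    · intro hy
      exact H2 l y u (mem_nb.1 hy).1 (mem_nb.1 hu).1 (low y hy) (low u hu)
    · rintro rfl
      exact hu
  by_cases h2 : ∃ v2 ∈ nb G W v1, δ v2 < δ v1
  · obtain ⟨w, hw, hwδ⟩ := h2
    have hd1w : δ v1 = δ w + 1 := by
      rcases H1 _ _ (mem_nb.1 hw).1 with h | h <;> omega
    have hwW : w ∈ W := (mem_nb.1 hw).2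
    set C := (nb G W w).filter (fun y => δ w < δ y) with hC
    have hv1C : v1 ∈ C := by
      rw [hC, Finset.mem_filter]
      exact ⟨nb_symm hw hv1W, by omega⟩
    obtain ⟨u, huC, humax⟩ := Finset.exists_max_image C (fun y => dg G W y) ⟨v1, hv1C⟩
    have huC' := Finset.mem_filter.1 huC
    have huW : u ∈ W := (mem_nb.1 huC'.1).2
    have hwu : w ∈ nb G W u := nb_symm huC'.1 hwW
    have hCδ : ∀ y ∈ C, δ y = δ w + 1 := by
      intro y hy
      have hy' := Finset.mem_filter.1 hy
      rcases H1 _ _ (mem_nb.1 hy'.1).1 with h | h <;> omega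
    have huδ := hCδ u huC
    have hdv1 : 2 ≤ dg G W v1 := by
      unfold dg
      have hsub : ({v0, w} : Finset V) ⊆ nb G W v1 := by
        intro y hy
        rw [Finset.mem_insert, Finset.mem_singleton] at hy
        rcases hy with rfl | rfl
        · exact nb_symm hv1 hv0
        · exact hw
      have hne : v0 ≠ w := by
        rintro rfl
        omega
      have := Finset.card_le_card hsub
      rwa [Finset.card_pair hne] at this
    have hdu : 2 ≤ dg G W u := le_trans hdv1 (humax v1 hv1C)
    refine ⟨u, w, C.erase u, ⟨huW, hwu, ?_, ?_, ?_, ?_, ?_, ?_, ?_⟩⟩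
    · intro l hl
      rw [Finset.mem_erase] at hl
      have hlW := (mem_nb.1 hl.2).2
      have hlδ : δ l = δ u + 1 := by
        rcases H1 _ _ (mem_nb.1 hl.2).1 with h | h
        · exfalso
          apply hl.1
          exact H2 u l w (mem_nb.1 hl.2).1 (mem_nb.1 hwu).1 (by omega) (by omega)
        · exact h
      exact hdeep l u hlW (by omega) (nb_symm hl.2 huW)
    · intro y hy
      exact (Finset.mem_filter.1 (Finset.mem_of_mem_erase hy)).1
    · exact Finset.notMem_erase u C
    · intro y hy hyu
      have hyδ := hCδ y (Finset.mem_of_mem_erase hy)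
      rcases H1 _ _ (mem_nb.1 hyu).1 with h | h <;> omega
    · intro y hy
      exact humax y (Finset.mem_of_mem_erase hy)
    · have hcardC : (C.erase u).card + 1 = C.card := Finset.card_erase_add_one huC
      have hlow : ((nb G W w).filter (fun y => ¬ δ w < δ y)).card ≤ 1 := by
        rw [Finset.card_le_one]
        intro a ha b hb
        rw [Finset.mem_filter] at ha hb
        apply H2 w a b (mem_nb.1 ha.1).1 (mem_nb.1 hb.1).1
        · rcases H1 _ _ (mem_nb.1 ha.1).1 with h | h <;> omega
        · rcases H1 _ _ (mem_nb.1 hb.1).1 with h | h <;> omega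
      have hcov : nb G W w ⊆ C ∪ (nb G W w).filter (fun y => ¬ δ w < δ y) := by
        intro y hy
        rw [Finset.mem_union, hC, Finset.mem_filter, Finset.mem_filter]
        by_cases h : δ w < δ y
        · exact Or.inl ⟨hy, h⟩
        · exact Or.inr ⟨hy, h⟩
      have hsplit := (Finset.card_le_card hcov).trans (Finset.card_union_le _ _)
      unfold dg
      omega
    · left
      have : ((nb G W u).erase w).card + 1 = (nb G W u).card := Finset.card_erase_add_one hwu
      unfold dg at hdu
      omega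
  · push Not at h2
    have hall : ∀ y ∈ nb G W v1, δ y = δ v0 := by
      intro y hy
      have := h2 y hy
      rcases H1 _ _ (mem_nb.1 hy).1 with h | h <;> omega
    have hone : ∀ y ∈ nb G W v1, dg G W y = 1 := by
      intro y hy
      exact hdeep y v1 (mem_nb.1 hy).2 (hall y hy) (nb_symm hy hv1W)
    have hv01 : v0 ∈ nb G W v1 := nb_symm hv1 hv0
    refine ⟨v1, v0, ∅, ⟨hv1W, hv01, ?_, ?_, ?_, ?_, ?_, ?_, ?_⟩⟩
    · intro l hl
      exact hone l (Finset.mem_of_mem_erase hl)
    · exact Finset.empty_subset _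
    · exact Finset.notMem_empty _
    · intro y hy
      exact absurd hy (Finset.notMem_empty _)
    · intro y hy
      exact absurd hy (Finset.notMem_empty _)
    · rw [hone v0 hv01]
      simp
    · right
      exact hone v0 hv01

theorem forest_W (δ : V → ℕ)
    (H1 : ∀ u v, G.Adj u v → δ u = δ v + 1 ∨ δ v = δ u + 1)
    (H2 : ∀ v y z, G.Adj v y → G.Adj v z → δ y < δ v → δ z < δ v → y = z)
    {c : ℝ} (ht : 0 < t) (hct : c * t = 1 + t) (hc : 1 < c) :
    ∀ (n : ℕ) (W : Finset V), W.card = n → Sf G c W * Zf G t W ≤ Mf G t W := by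
  intro n
  induction n using Nat.strong_induction_on with
  | _ n ih =>
    intro W hn
    have ih' : ∀ W' : Finset V, W'.card < W.card → Sf G c W' * Zf G t W' ≤ Mf G t W' := by
      intro W' h
      exact ih W'.card (by omega) W' rfl
    rcases W.eq_empty_or_nonempty with rfl | hW
    · have h1 : Sf G c ∅ = 0 := by unfold Sf; simp
      rw [h1, zero_mul]
      unfold Mf
      apply Finset.sum_nonneg
      intro I _
      positivity
    · rcases exists_star δ H1 H2 W hW with ⟨v, hv, hiso⟩ | ⟨u, w, Y, hs⟩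
      · exact isolated_step ht hct hc hv hiso ih'
      · exact star_step ht hct hc hs ih'

/-- the depth function of a forest -/
lemma exists_depth (hG : G.IsAcyclic) : ∃ δ : V → ℕ,
    (∀ u v, G.Adj u v → δ u = δ v + 1 ∨ δ v = δ u + 1) ∧
    (∀ v y z, G.Adj v y → G.Adj v z → δ y < δ v → δ z < δ v → y = z) := by
  have core : ∀ r v y : V, G.Adj y v → G.Reachable r y → G.dist r y ≤ G.dist r v →
      ∃ (P : G.Walk r y) (h : G.Adj y v), (P.concat h).IsPath ∧ P.length = G.dist r y := by
    intro r v y hyv hr hle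
    obtain ⟨P, hP, hPl⟩ := hr.exists_path_of_dist
    refine ⟨P, hyv, ?_, hPl⟩
    apply hP.concat
    intro hv
    have h1 : (P.takeUntil v hv).length < P.length :=
      P.length_takeUntil_lt_length hv (G.ne_of_adj hyv).symm
    have h2 : G.dist r v ≤ (P.takeUntil v hv).length := SimpleGraph.dist_le _
    omega
  let ρ : V → V := fun v => (G.connectedComponentMk v).out
  have hρ : ∀ v, G.Reachable (ρ v) v := by
    intro v
    exact SimpleGraph.ConnectedComponent.exact (Quot.out_eq _)
  have hρadj : ∀ u v, G.Adj u v → ρ u = ρ v := by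
    intro u v h
    have : G.connectedComponentMk u = G.connectedComponentMk v :=
      SimpleGraph.ConnectedComponent.sound h.reachable
    show (G.connectedComponentMk u).out = (G.connectedComponentMk v).out
    rw [this]
  refine ⟨fun v => G.dist (ρ v) v, ?_, ?_⟩
  · intro u v huv
    show G.dist (ρ u) u = G.dist (ρ v) v + 1 ∨ G.dist (ρ v) v = G.dist (ρ u) u + 1
    have aux : ∀ u v : V, G.Adj u v → G.dist (ρ u) u ≤ G.dist (ρ v) v →
        G.dist (ρ v) v = G.dist (ρ u) u + 1 := by
      intro u v huv hle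
      have e := hρadj u v huv
      rw [e] at hle ⊢
      have hr : G.Reachable (ρ v) u := by rw [← e]; exact hρ u
      obtain ⟨P, h, hP, hPl⟩ := core (ρ v) v u huv hr hle
      obtain ⟨Q, hQ, hQl⟩ := (hρ v).exists_path_of_dist
      have := (hG.subsingleton_path _ _).elim ⟨P.concat h, hP⟩ ⟨Q, hQ⟩
      have h3 : P.concat h = Q := congrArg Subtype.val this
      rw [← hQl, ← h3, SimpleGraph.Walk.length_concat, hPl]
    rcases le_total (G.dist (ρ u) u) (G.dist (ρ v) v) with h | h
    · exact Or.inr (aux u v huv h)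
    · exact Or.inl (aux v u huv.symm h)
  · intro v y z hy hz hyl hzl
    have hyl' : G.dist (ρ y) y < G.dist (ρ v) v := hyl
    have hzl' : G.dist (ρ z) z < G.dist (ρ v) v := hzl
    have ey := hρadj y v hy.symm
    have ez := hρadj z v hz.symm
    have hry : G.Reachable (ρ v) y := by rw [← ey]; exact hρ y
    have hrz : G.Reachable (ρ v) z := by rw [← ez]; exact hρ z
    rw [ey] at hyl'
    rw [ez] at hzl'
    obtain ⟨P, h, hP, _⟩ := core (ρ v) v y hy.symm hry hyl'.le
    obtain ⟨Q, h', hQ, _⟩ := core (ρ v) v z hz.symm hrz hzl'.le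
    have := (hG.subsingleton_path _ _).elim ⟨P.concat h, hP⟩ ⟨Q.concat h', hQ⟩
    have h3 : P.concat h = Q.concat h' := congrArg Subtype.val this
    have h4 := congrArg SimpleGraph.Walk.penultimate h3
    rwa [SimpleGraph.Walk.penultimate_concat, SimpleGraph.Walk.penultimate_concat] at h4

theorem forest_div (hG : G.IsAcyclic) (ht : 0 < t) :
    (∑ v : V, t / (1 + ((G.degree v : ℝ) + 1) * t)) ≤
      (∑ I ∈ (Finset.univ : Finset (Finset V)).filter
            (fun I : Finset V => G.IsIndepSet (↑I : Set V)),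
          ((Finset.card I : ℕ) : ℝ) * t ^ (Finset.card I)) /
      (∑ I ∈ (Finset.univ : Finset (Finset V)).filter
            (fun I : Finset V => G.IsIndepSet (↑I : Set V)),
          t ^ (Finset.card I)) := by
  obtain ⟨δ, H1, H2⟩ := exists_depth hG
  have hct : (1 + 1 / t) * t = 1 + t := by field_simp; ring
  have hc : 1 < 1 + 1 / t := by
    have : 0 < 1 / t := by positivity
    linarith
  have key := forest_W δ H1 H2 ht hct hc _ (Finset.univ : Finset V) rfl
  have hfil : (Ind G).filter (fun I => I ⊆ (Finset.univ : Finset V)) = Ind G := by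
    apply Finset.filter_true_of_mem
    intro I _
    exact Finset.subset_univ I
  have hZ : Zf G t Finset.univ = ∑ I ∈ Ind G, t ^ I.card := by
    unfold Zf; rw [hfil]
  have hM : Mf G t Finset.univ = ∑ I ∈ Ind G, ((I.card : ℕ) : ℝ) * t ^ I.card := by
    unfold Mf; rw [hfil]
  have hS : Sf G (1 + 1 / t) Finset.univ = ∑ v : V, t / (1 + ((G.degree v : ℝ) + 1) * t) := by
    unfold Sf
    refine Finset.sum_congr rfl fun v _ => ?_
    have hd : dg G Finset.univ v = G.degree v := by
      unfold dg nb
      rw [Finset.inter_univ, SimpleGraph.card_neighborFinset_eq_degree]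
    rw [hd]
    have : 0 < 1 + ((G.degree v : ℝ) + 1) * t := by positivity
    field_simp
    ring
  have hpos : 0 < Zf G t Finset.univ := Zf_pos ht _
  rw [hZ, hM, hS] at key
  rw [hZ] at hpos
  unfold Ind at key hpos
  rw [le_div_iff₀ hpos]
  exact key

end Pool.Agent.H696R3.Forest
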