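import Mathlib
import Pool.Agent.H696R3.HardCore

set_option autoImplicit false
open Classical

namespace Pool.Agent.H696R3.HardCore

variable {V : Type} [Fintype V] (G : SimpleGraph V) (t : ℝ)

lemma sum_card :
    ∑ I ∈ Ind G, ((I.card : ℕ) : ℝ) * t ^ I.card
      = ∑ v : V, ∑ I ∈ (Ind G).filter (fun I => v ∈ I), t ^ I.card := by
  have h : ∀ v : V, ∑ I ∈ (Ind G).filter (fun I => v ∈ I), t ^ I.card
      = ∑ I ∈ Ind G, if v ∈ I then t ^ I.card else 0 := fun v => Finset.sum_filter _ _
  simp_rw [h]
  rw [Finset.sum_comm]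
  refine Finset.sum_congr rfl fun I _ => ?_
  rw [← Finset.sum_filter, Finset.sum_const, nsmul_eq_mul, Finset.filter_mem_eq_inter,
    Finset.univ_inter]

lemma sum_nbr (x : V → ℝ) :
    ∑ v : V, ((G.degree v : ℕ) : ℝ) * (x v * ∑ I ∈ (Ind G).filter (fun I => v ∈ I), t ^ I.card)
      = ∑ u : V, ∑ I ∈ Ind G, t ^ I.card * ∑ v ∈ G.neighborFinset u ∩ I, x v := by
  have h1 : ∀ v : V, ((G.degree v : ℕ) : ℝ) *
      (x v * ∑ I ∈ (Ind G).filter (fun I => v ∈ I), t ^ I.card)
      = ∑ u : V, if G.Adj u v then
          (x v * ∑ I ∈ (Ind G).filter (fun I => v ∈ I), t ^ I.card) else 0 := by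
    intro v
    rw [← Finset.sum_filter, Finset.sum_const, nsmul_eq_mul]
    congr 2
    rw [← SimpleGraph.card_neighborFinset_eq_degree]
    congr 1
    ext u
    simp [SimpleGraph.adj_comm]
  simp_rw [h1]
  rw [Finset.sum_comm]
  refine Finset.sum_congr rfl fun u _ => ?_
  have h2 : ∀ I ∈ Ind G, t ^ I.card * ∑ v ∈ G.neighborFinset u ∩ I, x v
      = ∑ v : V, if G.Adj u v then (if v ∈ I then x v * t ^ I.card else 0) else 0 := by
    intro I _
    rw [Finset.mul_sum]
    have h3 : G.neighborFinset u ∩ I
        = Finset.univ.filter (fun v => G.Adj u v ∧ v ∈ I) := by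
      ext v
      simp [SimpleGraph.mem_neighborFinset]
    rw [h3, Finset.sum_filter]
    refine Finset.sum_congr rfl fun v _ => ?_
    by_cases ha : G.Adj u v
    · by_cases hb : v ∈ I
      · simp [ha, hb, mul_comm]
      · simp [ha, hb]
    · simp [ha]
  rw [Finset.sum_congr rfl h2, Finset.sum_comm]
  refine Finset.sum_congr rfl fun v _ => ?_
  by_cases ha : G.Adj u v
  · simp only [ha, if_true]
    rw [Finset.sum_filter, Finset.mul_sum]
    refine Finset.sum_congr rfl fun I _ => ?_
    split_ifs <;> simp
  · simp [ha]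

/-- the exchange identity, summed up -/
lemma exchange_sum (x : V → ℝ) :
    ∑ u : V, ∑ I ∈ Ind G, t ^ I.card *
      ∑ v : V, (if G.neighborFinset u ∩ I = {v} then x v - x u else 0) = 0 := by
  set M : V → V → ℝ := fun u v =>
    ∑ I ∈ (Ind G).filter (fun I => G.neighborFinset u ∩ I = {v}), t ^ I.card with hM
  have hsymm : ∀ u v, M u v = M v u := fun u v => exchange G t u v
  have h1 : ∀ u : V, ∑ I ∈ Ind G, t ^ I.card *
      ∑ v : V, (if G.neighborFinset u ∩ I = {v} then x v - x u else 0)
      = ∑ v : V, (x v - x u) * M u v := by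
    intro u
    simp_rw [Finset.mul_sum]
    rw [Finset.sum_comm]
    refine Finset.sum_congr rfl fun v _ => ?_
    simp only [hM]
    rw [Finset.sum_filter, Finset.mul_sum]
    refine Finset.sum_congr rfl fun I _ => ?_
    split_ifs
    · ring
    · ring
  simp_rw [h1]
  have h2 : ∑ u : V, ∑ v : V, (x v - x u) * M u v
      = ∑ u : V, ∑ v : V, x v * M u v - ∑ u : V, ∑ v : V, x u * M u v := by
    rw [← Finset.sum_sub_distrib]
    refine Finset.sum_congr rfl fun u _ => ?_
    rw [← Finset.sum_sub_distrib]
    refine Finset.sum_congr rfl fun v _ => ?_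
    ring
  rw [h2]
  have h3 : ∑ u : V, ∑ v : V, x v * M u v = ∑ u : V, ∑ v : V, x u * M u v := by
    rw [Finset.sum_comm]
    refine Finset.sum_congr rfl fun u _ => ?_
    refine Finset.sum_congr rfl fun v _ => ?_
    rw [hsymm]
  rw [h3, sub_self]

/-- The fugacity share of a vertex. -/
noncomputable def share (v : V) : ℝ := t / (1 + ((G.degree v : ℝ) + 1) * t)

lemma share_pos (ht : 0 < t) (v : V) : 0 < share G t v := by
  unfold share
  positivity

/-- the exact identity behind everything -/
lemma identity (ht : 0 < t) :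
    ∑ I ∈ Ind G, ((I.card : ℕ) : ℝ) * t ^ I.card
        - (∑ v : V, share G t v) * ∑ I ∈ Ind G, t ^ I.card
      = ∑ u : V, ∑ I ∈ Ind G, t ^ I.card *
        ((if G.neighborFinset u ∩ I = ∅ then share G t u else 0)
          + ∑ v ∈ G.neighborFinset u ∩ I, share G t v - share G t u) := by
  have h1 : ∀ v : V, ∑ I ∈ (Ind G).filter (fun I => v ∈ I), t ^ I.card
      = share G t v * ∑ I ∈ (Ind G).filter (fun I => G.neighborFinset v ∩ I = ∅), t ^ I.card
        + ((G.degree v : ℕ) : ℝ) *
          (share G t v * ∑ I ∈ (Ind G).filter (fun I => v ∈ I), t ^ I.card) := by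
    intro v
    have hl := local_identity G t v
    have hD : (1 + ((G.degree v : ℝ) + 1) * t) ≠ 0 := by positivity
    have hs : share G t v * (1 + ((G.degree v : ℝ) + 1) * t) = t := by
      unfold share
      field_simp
    set a := ∑ I ∈ (Ind G).filter (fun I => v ∈ I), t ^ I.card with ha
    set b := ∑ I ∈ (Ind G).filter (fun I => G.neighborFinset v ∩ I = ∅), t ^ I.card with hb
    have ht' : t ≠ 0 := ht.ne'
    have key : t * a = t * (share G t v * b + ((G.degree v : ℕ) : ℝ) * (share G t v * a)) := by
      have e1 : t * (share G t v * b) = share G t v * ((1 + t) * a) := by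
        rw [hl]; ring
      have e2 : t * a = (share G t v * (1 + ((G.degree v : ℝ) + 1) * t)) * a := by rw [hs]
      rw [mul_add, e1, e2]
      ring
    exact mul_left_cancel₀ ht' key
  rw [sum_card]
  rw [Finset.sum_congr rfl (fun v _ => h1 v), Finset.sum_add_distrib, sum_nbr, Finset.sum_mul,
    ← Finset.sum_add_distrib, ← Finset.sum_sub_distrib]
  refine Finset.sum_congr rfl fun u _ => ?_
  rw [Finset.sum_filter, Finset.mul_sum, Finset.mul_sum, ← Finset.sum_add_distrib,
    ← Finset.sum_sub_distrib]
  refine Finset.sum_congr rfl fun I _ => ?_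
  split_ifs
  · ring
  · ring

theorem main (ht : 0 < t)
    (h : ∀ v u w : V, G.Adj v u → G.Adj v w → u ≠ w → ¬ G.Adj u w →
      share G t v ≤ share G t u + share G t w) :
    (∑ v : V, share G t v) * ∑ I ∈ Ind G, t ^ I.card
      ≤ ∑ I ∈ Ind G, ((I.card : ℕ) : ℝ) * t ^ I.card := by
  have hid := identity G t ht
  have hex := exchange_sum G t (share G t)
  have hle : ∑ u : V, ∑ I ∈ Ind G, t ^ I.card *
      ∑ v : V, (if G.neighborFinset u ∩ I = {v} then share G t v - share G t u else 0)
      ≤ ∑ u : V, ∑ I ∈ Ind G, t ^ I.card *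
        ((if G.neighborFinset u ∩ I = ∅ then share G t u else 0)
          + ∑ v ∈ G.neighborFinset u ∩ I, share G t v - share G t u) := by
    refine Finset.sum_le_sum fun u _ => Finset.sum_le_sum fun I hI => ?_
    refine mul_le_mul_of_nonneg_left ?_ (by positivity)
    rcases Finset.eq_empty_or_nonempty (G.neighborFinset u ∩ I) with h0 | ⟨a, ha⟩
    · rw [h0]
      have : ∀ v : V, ¬ ((∅ : Finset V) = {v}) := fun v hv =>
        absurd (hv ▸ Finset.mem_singleton_self v : v ∈ (∅ : Finset V)) (Finset.notMem_empty v)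
      simp [this]
    · have hne : G.neighborFinset u ∩ I ≠ ∅ := Finset.nonempty_iff_ne_empty.1 ⟨a, ha⟩
      rw [if_neg hne, zero_add]
      by_cases hone : G.neighborFinset u ∩ I = {a}
      · rw [hone, Finset.sum_singleton]
        have : ∀ v : V, (if ({a} : Finset V) = {v} then share G t v - share G t u else 0)
            = if a = v then share G t v - share G t u else 0 := by
          intro v
          simp [Finset.singleton_inj]
        simp_rw [this]
        rw [Finset.sum_ite_eq]
        simp
      · have hzero : ∀ v : V,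
            (if G.neighborFinset u ∩ I = {v} then share G t v - share G t u else 0) = 0 := by
          intro v
          rw [if_neg]
          intro hv
          rw [hv, Finset.mem_singleton] at ha
          exact hone (hv.trans (by rw [ha]))
        simp_rw [hzero]
        rw [Finset.sum_const_zero]
        obtain ⟨b, hb, hab⟩ : ∃ b ∈ G.neighborFinset u ∩ I, b ≠ a := by
          by_contra hcon
          push Not at hcon
          apply hone
          ext c
          rw [Finset.mem_singleton]
          exact ⟨fun hc => hcon c hc, fun hc => hc ▸ ha⟩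
        have ha' := Finset.mem_inter.1 ha
        have hb' := Finset.mem_inter.1 hb
        have hnadj : ¬ G.Adj a b := (mem_Ind G).1 hI a ha'.2 b hb'.2
        have hsub : ({a, b} : Finset V) ⊆ G.neighborFinset u ∩ I := by
          intro c hc
          rw [Finset.mem_insert, Finset.mem_singleton] at hc
          rcases hc with rfl | rfl
          · exact ha
          · exact hb
        have h2 : share G t a + share G t b ≤ ∑ v ∈ G.neighborFinset u ∩ I, share G t v := by
          rw [← Finset.sum_pair (Ne.symm hab)]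
          exact Finset.sum_le_sum_of_subset_of_nonneg hsub
            (fun c _ _ => (share_pos G t ht c).le)
        have h3 := h u a b ((G.mem_neighborFinset u a).1 ha'.1)
          ((G.mem_neighborFinset u b).1 hb'.1) (Ne.symm hab) hnadj
        linarith
  rw [hex, ← hid] at hle
  linarith

lemma Z_pos (ht : 0 < t) : 0 < ∑ I ∈ Ind G, t ^ I.card := by
  apply Finset.sum_pos
  · intro I _
    positivity
  · exact ⟨∅, (mem_Ind G).2 (by simp)⟩

theorem main_div (ht : 0 < t)
    (h : ∀ v u w : V, G.Adj v u → G.Adj v w → u ≠ w → ¬ G.Adj u w →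
      1 / (1 + ((G.degree v : ℝ) + 1) * t)
        ≤ 1 / (1 + ((G.degree u : ℝ) + 1) * t) + 1 / (1 + ((G.degree w : ℝ) + 1) * t)) :
    (∑ v : V, t / (1 + ((G.degree v : ℝ) + 1) * t)) ≤
      (∑ I ∈ (Finset.univ : Finset (Finset V)).filter
            (fun I : Finset V => G.IsIndepSet (↑I : Set V)),
          ((Finset.card I : ℕ) : ℝ) * t ^ (Finset.card I)) /
      (∑ I ∈ (Finset.univ : Finset (Finset V)).filter
            (fun I : Finset V => G.IsIndepSet (↑I : Set V)),
          t ^ (Finset.card I)) := by
  have hZ := Z_pos G t ht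
  unfold Ind at hZ
  rw [le_div_iff₀ hZ]
  refine main G t ht ?_
  intro v u w h1 h2 h3 h4
  have := h v u w h1 h2 h3 h4
  unfold share
  have e : ∀ a : ℝ, t / a = t * (1 / a) := fun a => by ring
  rw [e, e (1 + ((G.degree u : ℝ) + 1) * t), e (1 + ((G.degree w : ℝ) + 1) * t), ← mul_add]
  exact mul_le_mul_of_nonneg_left this ht.le

end Pool.Agent.H696R3.HardCore
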