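import Mathlib
import Pool.Agent.H696R3.ConeMain
import Pool.Agent.H696R3.ForestMain
import Pool.Agent.H696R3.HardCoreMain

set_option autoImplicit false
open Classical

namespace Pool.Agent.H696R3.Forest

open Pool.Agent.H696R3.HardCore

variable {V : Type} [Fintype V] {G : SimpleGraph V}

lemma sum_transfer (W : Finset V) (f : ℕ → ℝ) :
    ∑ J ∈ Ind (G.induce (↑W : Set V)), f J.card
      = ∑ I ∈ (Ind G).filter (fun I => I ⊆ W), f I.card := by
  refine Finset.sum_nbij' (fun J => J.map (Function.Embedding.subtype _))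
    (fun I => I.subtype (fun v => v ∈ (↑W : Set V))) ?_ ?_ ?_ ?_ ?_
  · intro J hJ
    rw [mem_Ind] at hJ
    rw [Finset.mem_filter, mem_Ind]
    constructor
    · intro a ha b hb
      rw [Finset.mem_map] at ha hb
      obtain ⟨a', ha', rfl⟩ := ha
      obtain ⟨b', hb', rfl⟩ := hb
      intro hadj
      exact hJ a' ha' b' hb' hadj
    · intro a ha
      rw [Finset.mem_map] at ha
      obtain ⟨a', _, rfl⟩ := ha
      exact a'.2
  · intro I hI
    rw [Finset.mem_filter, mem_Ind] at hI
    rw [mem_Ind]
    intro a ha b hb hadj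
    rw [Finset.mem_subtype] at ha hb
    exact hI.1 a ha b hb hadj
  · intro J _
    ext a
    simp [Finset.mem_subtype, Finset.mem_map]
  · intro I hI
    rw [Finset.mem_filter] at hI
    apply Finset.subtype_map_of_mem
    intro x hx
    exact hI.2 hx
  · intro J _
    show f J.card = f (J.map (Function.Embedding.subtype _)).card
    rw [Finset.card_map]

lemma degree_transfer (W : Finset V) (v : (↑W : Set V))
    [Fintype ((G.induce (↑W : Set V)).neighborSet v)] :
    (G.induce (↑W : Set V)).degree v = dg G W v := by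
  unfold dg
  rw [← SimpleGraph.card_neighborFinset_eq_degree,
    ← Finset.card_map (Function.Embedding.subtype (fun x => x ∈ (↑W : Set V)))]
  congr 1
  ext y
  rw [Finset.mem_map, mem_nb]
  constructor
  · rintro ⟨y', hy', rfl⟩
    rw [SimpleGraph.mem_neighborFinset] at hy'
    exact ⟨hy', y'.2⟩
  · rintro ⟨h1, h2⟩
    refine ⟨⟨y, h2⟩, ?_, rfl⟩
    rw [SimpleGraph.mem_neighborFinset]
    exact h1

/-- the inequality of Q1 for `G[W]` at fugacity `t` -/
def Good (G : SimpleGraph V) (W : Finset V) (t : ℝ) : Prop :=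
  Sf G (1 + 1 / t) W * Zf G t W ≤ Mf G t W

lemma share_eq {t : ℝ} (ht : 0 < t) (d : ℕ) :
    t / (1 + ((d : ℝ) + 1) * t) = 1 / (1 + 1 / t + (d : ℝ)) := by
  have : 0 < 1 + ((d : ℝ) + 1) * t := by positivity
  field_simp
  ring

/-- adding a dominating vertex -/
lemma good_cone {W : Finset V} {v : V} {t : ℝ} (ht : 0 < t) (hv : v ∉ W)
    (hadj : ∀ u ∈ W, G.Adj v u) (h : Good G W (t / (1 + t))) : Good G (insert v W) t := by
  have hs : 0 < t / (1 + t) := by positivity
  have hj := join_one (G := G) ht W
  have hZs : 0 < Zf G (t / (1 + t)) W := Zf_pos hs W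
  have hZt : 0 < Zf G t W := Zf_pos ht W
  unfold Good at h ⊢
  rw [← le_div_iff₀ hZs] at h
  have hnb : nb G (insert v W) v = W := by
    ext y
    rw [mem_nb, Finset.mem_insert]
    constructor
    · rintro ⟨h1, h2 | h2⟩
      · exact absurd h2.symm (G.ne_of_adj h1)
      · exact h2
    · intro hy
      exact ⟨hadj y hy, Or.inr hy⟩
  have hempty : insert v W \ insert v (nb G (insert v W) v) = ∅ := by
    rw [hnb, Finset.sdiff_self]
  have hZ0 : Zf G t ∅ = 1 := by
    unfold Zf
    have : (Ind G).filter (fun I => I ⊆ (∅ : Finset V)) = {∅} := by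
      ext I
      rw [Finset.mem_filter, Finset.mem_singleton, Finset.subset_empty]
      constructor
      · rintro ⟨_, h⟩; exact h
      · rintro rfl; exact ⟨(mem_Ind G).2 (by simp), rfl⟩
    rw [this]
    simp
  have hZi : Zf G t (insert v W) = Zf G t W + t := by
    rw [Z_rec t (Finset.mem_insert_self v W), hempty, Finset.erase_insert hv, hZ0, mul_one]
  have hMi : Mf G t (insert v W) = Mf G t W + t := by
    rw [M_rec t (Finset.mem_insert_self v W), hempty, Finset.erase_insert hv, hZ0, M_zero rfl,
      add_zero, mul_one]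
  have hSi : Sf G (1 + 1 / t) (insert v W)
      = t / (1 + ((W.card : ℝ) + 1) * t) + Sf G (1 + 1 / (t / (1 + t))) W := by
    unfold Sf
    rw [Finset.sum_insert hv]
    congr 1
    · rw [share_eq ht]
      unfold dg
      rw [hnb]
    · refine Finset.sum_congr rfl fun u hu => ?_
      have hd : dg G (insert v W) u = dg G W u + 1 := by
        unfold dg
        have e : nb G (insert v W) u = insert v (nb G W u) := by
          ext y
          rw [mem_nb, Finset.mem_insert, Finset.mem_insert, mem_nb]
          constructor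
          · rintro ⟨h1, h2 | h2⟩
            · exact Or.inl h2
            · exact Or.inr ⟨h1, h2⟩
          · rintro (rfl | h2)
            · exact ⟨(hadj u hu).symm, Or.inl rfl⟩
            · exact ⟨h2.1, Or.inr h2.2⟩
        rw [e, Finset.card_insert_of_notMem]
        intro h'
        exact hv (mem_nb.1 h').2
      rw [hd]
      congr 1
      push_cast
      have : 1 / (t / (1 + t)) = 1 / t + 1 := by field_simp
      rw [this]
      ring
  rw [hZi, hMi, hSi, ← le_div_iff₀ (by linarith)]
  linarith

/-- independent sets of a disjoint union -/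
lemma good_union {A B : Finset V} {t : ℝ} (ht : 0 < t) (hAB : Disjoint A B)
    (hno : ∀ a ∈ A, ∀ b ∈ B, ¬ G.Adj a b) (hA : Good G A t) (hB : Good G B t) :
    Good G (A ∪ B) t := by
  -- double sums
  have key : ∀ f : ℕ → ℕ → ℝ,
      ∑ I ∈ IW G (A ∪ B), f (I ∩ A).card (I ∩ B).card
        = ∑ x ∈ IW G A ×ˢ IW G B, f x.1.card x.2.card := by
    intro f
    refine Finset.sum_nbij' (fun I => (I ∩ A, I ∩ B)) (fun x => x.1 ∪ x.2) ?_ ?_ ?_ ?_ ?_
    · intro I hI
      rw [mem_IW] at hI
      rw [Finset.mem_product, mem_IW, mem_IW]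
      exact ⟨⟨Ind_mono G hI.1 Finset.inter_subset_left, Finset.inter_subset_right⟩,
        ⟨Ind_mono G hI.1 Finset.inter_subset_left, Finset.inter_subset_right⟩⟩
    · rintro ⟨I, J⟩ h
      rw [Finset.mem_product, mem_IW, mem_IW] at h
      rw [mem_IW]
      refine ⟨?_, Finset.union_subset_union h.1.2 h.2.2⟩
      have h1 := (mem_Ind G).1 h.1.1
      have h2 := (mem_Ind G).1 h.2.1
      rw [mem_Ind]
      intro a ha b hb
      rcases Finset.mem_union.1 ha with ha | ha <;> rcases Finset.mem_union.1 hb with hb | hb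
      · exact h1 a ha b hb
      · exact hno a (h.1.2 ha) b (h.2.2 hb)
      · intro hab
        exact hno b (h.1.2 hb) a (h.2.2 ha) hab.symm
      · exact h2 a ha b hb
    · intro I hI
      rw [mem_IW] at hI
      show I ∩ A ∪ I ∩ B = I
      rw [← Finset.inter_union_distrib_left, Finset.inter_eq_left]
      exact hI.2
    · rintro ⟨I, J⟩ h
      rw [Finset.mem_product, mem_IW, mem_IW] at h
      have hIB : ∀ x ∈ I, x ∉ B := fun x hx hxB =>
        Finset.disjoint_left.1 hAB (h.1.2 hx) hxB
      have hJA : ∀ x ∈ J, x ∉ A := fun x hx hxA =>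
        Finset.disjoint_left.1 hAB hxA (h.2.2 hx)
      show ((I ∪ J) ∩ A, (I ∪ J) ∩ B) = (I, J)
      have i1 : (I ∪ J) ∩ A = I := by
        ext x
        rw [Finset.mem_inter, Finset.mem_union]
        constructor
        · rintro ⟨h1 | h1, h2⟩
          · exact h1
          · exact absurd h2 (hJA x h1)
        · intro hx
          exact ⟨Or.inl hx, h.1.2 hx⟩
      have i2 : (I ∪ J) ∩ B = J := by
        ext x
        rw [Finset.mem_inter, Finset.mem_union]
        constructor
        · rintro ⟨h1 | h1, h2⟩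
          · exact absurd h2 (hIB x h1)
          · exact h1
        · intro hx
          exact ⟨Or.inr hx, h.2.2 hx⟩
      rw [i1, i2]
    · intro I _
      rfl
  have hcard : ∀ I ∈ IW G (A ∪ B), I.card = (I ∩ A).card + (I ∩ B).card := by
    intro I hI
    rw [mem_IW] at hI
    have hd : Disjoint (I ∩ A) (I ∩ B) :=
      hAB.mono Finset.inter_subset_right Finset.inter_subset_right
    rw [← Finset.card_union_of_disjoint hd, ← Finset.inter_union_distrib_left,
      Finset.inter_eq_left.2 hI.2]
  have hZ : Zf G t (A ∪ B) = Zf G t A * Zf G t B := by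
    have e1 : Zf G t (A ∪ B) = ∑ I ∈ IW G (A ∪ B), t ^ (I ∩ A).card * t ^ (I ∩ B).card := by
      unfold Zf
      refine Finset.sum_congr rfl fun I hI => ?_
      rw [hcard I hI, pow_add]
    rw [e1, key (fun a b => t ^ a * t ^ b), Finset.sum_product]
    unfold Zf
    rw [Finset.sum_mul_sum]
    rfl
  have hM : Mf G t (A ∪ B) = Mf G t A * Zf G t B + Zf G t A * Mf G t B := by
    have e1 : Mf G t (A ∪ B) = ∑ I ∈ IW G (A ∪ B),
        ((((I ∩ A).card : ℕ) : ℝ) * t ^ (I ∩ A).card * t ^ (I ∩ B).card
          + t ^ (I ∩ A).card * ((((I ∩ B).card : ℕ) : ℝ) * t ^ (I ∩ B).card)) := by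
      unfold Mf
      refine Finset.sum_congr rfl fun I hI => ?_
      rw [hcard I hI, pow_add]
      push_cast
      ring
    rw [e1, key (fun a b => (((a : ℕ) : ℝ) * t ^ a * t ^ b + t ^ a * (((b : ℕ) : ℝ) * t ^ b))),
      Finset.sum_product]
    unfold Zf Mf
    rw [Finset.sum_mul_sum, Finset.sum_mul_sum, ← Finset.sum_add_distrib]
    refine Finset.sum_congr rfl fun I _ => ?_
    rw [← Finset.sum_add_distrib]
    rfl
  have hS : Sf G (1 + 1 / t) (A ∪ B) = Sf G (1 + 1 / t) A + Sf G (1 + 1 / t) B := by
    unfold Sf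
    rw [Finset.sum_union hAB]
    congr 1
    · refine Finset.sum_congr rfl fun v hv => ?_
      have : dg G (A ∪ B) v = dg G A v := by
        unfold dg
        congr 1
        ext y
        rw [mem_nb, mem_nb, Finset.mem_union]
        constructor
        · rintro ⟨h1, h2 | h2⟩
          · exact ⟨h1, h2⟩
          · exact absurd h1 (hno v hv y h2)
        · rintro ⟨h1, h2⟩
          exact ⟨h1, Or.inl h2⟩
      rw [this]
    · refine Finset.sum_congr rfl fun v hv => ?_
      have : dg G (A ∪ B) v = dg G B v := by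
        unfold dg
        congr 1
        ext y
        rw [mem_nb, mem_nb, Finset.mem_union]
        constructor
        · rintro ⟨h1, h2 | h2⟩
          · exact absurd h1.symm (hno y h2 v hv)
          · exact ⟨h1, h2⟩
        · rintro ⟨h1, h2⟩
          exact ⟨h1, Or.inr h2⟩
      rw [this]
  unfold Good at hA hB ⊢
  rw [hZ, hM, hS]
  have hZA : 0 < Zf G t A := Zf_pos ht A
  have hZB : 0 < Zf G t B := Zf_pos ht B
  nlinarith [mul_le_mul_of_nonneg_right hA hZB.le, mul_le_mul_of_nonneg_left hB hZA.le]

end Pool.Agent.H696R3.Forest
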